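import Pool.Agent.HadL.Std

set_option autoImplicit false

namespace Pool.Agent.HadL

open Matrix

open Kronecker in
private theorem A5_kl {X Y : Type} [Fintype X] [Fintype Y] [DecidableEq Y] (A : Matrix X X ℤ)
    (x : X × Y) : ∑ y : X × Y, |(A ⊗ₖ (1 : Matrix Y Y ℤ)) x y| = ∑ y, |A x.1 y| := by
  rw [Fintype.sum_prod_type]
  refine Finset.sum_congr rfl fun y _ => ?_
  rw [Finset.sum_eq_single x.2]
  · simp [Matrix.kroneckerMap_apply]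
  · intro z _ hz
    simp [Matrix.kroneckerMap_apply, Matrix.one_apply_ne hz.symm]
  · intro h; exact absurd (Finset.mem_univ _) h

open Kronecker in
private theorem A5_kr {X Y : Type} [Fintype X] [Fintype Y] [DecidableEq X] (A : Matrix Y Y ℤ)
    (x : X × Y) : ∑ y : X × Y, |((1 : Matrix X X ℤ) ⊗ₖ A) x y| = ∑ y, |A x.2 y| := by
  rw [Fintype.sum_prod_type]
  rw [Finset.sum_eq_single x.1]
  · refine Finset.sum_congr rfl fun y _ => ?_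
    simp [Matrix.kroneckerMap_apply]
  · intro z _ hz
    refine Finset.sum_eq_zero fun y _ => ?_
    simp [Matrix.kroneckerMap_apply, Matrix.one_apply_ne hz.symm]
  · intro h; exact absurd (Finset.mem_univ _) h

/-- the coefficients of the sum -/
private def A5_c {X₁ X₂ E₁ E₂ : Type} [DecidableEq X₁] [DecidableEq X₂]
    (c₁ : E₁ → Matrix X₁ X₁ ℤ) (c₂ : E₂ → Matrix X₂ X₂ ℤ) (n₁ : E₁ → E₁) (n₂ : E₂ → E₂) :
    E₁ ⊕ E₂ → Matrix ((X₁ × X₂) ⊕ (X₁ × X₂)) ((X₁ × X₂) ⊕ (X₁ × X₂)) ℤ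
  | Sum.inl i => Matrix.fromBlocks (Matrix.kroneckerMap (fun a b => a * b) (c₁ i) 1) 0 0
      (Matrix.kroneckerMap (fun a b => a * b) (c₁ (n₁ i))ᵀ 1)
  | Sum.inr j => Matrix.fromBlocks 0 (Matrix.kroneckerMap (fun a b => a * b) 1 (c₂ j))
      (-(Matrix.kroneckerMap (fun a b => a * b) 1 (c₂ (n₂ j))ᵀ)) 0

private theorem A5_sum {X₁ X₂ : Type} [Fintype X₁] [Fintype X₂] (f : (X₁ × X₂) ⊕ (X₁ × X₂) → ℤ) :
    ∑ y, f y = ∑ y, f (Sum.inl y) + ∑ y, f (Sum.inr y) := Fintype.sum_sum_type f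

/-- the involution of the sum -/
private def A5_i {X₁ X₂ : Type} (ι₁ : X₁ → X₁) (ι₂ : X₂ → X₂) :
    (X₁ × X₂) ⊕ (X₁ × X₂) → (X₁ × X₂) ⊕ (X₁ × X₂)
  | Sum.inl x => Sum.inl (ι₁ x.1, ι₂ x.2)
  | Sum.inr x => Sum.inr (ι₁ x.1, ι₂ x.2)

private def A5_e {X₁ X₂ : Type} (ε₁ : X₁ → ℤ) : (X₁ × X₂) ⊕ (X₁ × X₂) → ℤ
  | Sum.inl x => ε₁ x.1
  | Sum.inr x => ε₁ x.1

private theorem A5_row {X₁ X₂ E₁ E₂ : Type} [Fintype X₁] [Fintype X₂]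
    [DecidableEq X₁] [DecidableEq X₂]
    (c₁ : E₁ → Matrix X₁ X₁ ℤ) (c₂ : E₂ → Matrix X₂ X₂ ℤ) (n₁ : E₁ → E₁) (n₂ : E₂ → E₂)
    (ι₁ : X₁ → X₁) (ι₂ : X₂ → X₂)
    (hr₁ : ∀ i x, ∑ y, |c₁ i x y| + ∑ y, |c₁ i (ι₁ x) y| = 1)
    (hr₂ : ∀ i x, ∑ y, |c₂ i x y| + ∑ y, |c₂ i (ι₂ x) y| = 1)
    (hc₁ : ∀ i y, ∑ x, |c₁ i x y| + ∑ x, |c₁ i x (ι₁ y)| = 1)
    (hc₂ : ∀ i y, ∑ x, |c₂ i x y| + ∑ x, |c₂ i x (ι₂ y)| = 1)
    (q : E₁ ⊕ E₂) (x : (X₁ × X₂) ⊕ (X₁ × X₂)) :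
    ∑ y, |A5_c c₁ c₂ n₁ n₂ q x y| + ∑ y, |A5_c c₁ c₂ n₁ n₂ q (A5_i ι₁ ι₂ x) y| = 1 := by
  rcases q with i | j
  · rcases x with x | x
    · simp only [A5_sum, A5_c, A5_i, Matrix.fromBlocks_apply₁₁, Matrix.fromBlocks_apply₁₂,
        Matrix.zero_apply, abs_zero, Finset.sum_const_zero, add_zero]
      rw [A5_kl, A5_kl]; exact hr₁ i x.1
    · simp only [A5_sum, A5_c, A5_i, Matrix.fromBlocks_apply₂₁, Matrix.fromBlocks_apply₂₂,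
        Matrix.zero_apply, abs_zero, Finset.sum_const_zero, zero_add]
      rw [A5_kl, A5_kl]; exact hc₁ (n₁ i) x.1
  · rcases x with x | x
    · simp only [A5_sum, A5_c, A5_i, Matrix.fromBlocks_apply₁₁, Matrix.fromBlocks_apply₁₂,
        Matrix.zero_apply, abs_zero, Finset.sum_const_zero, zero_add]
      rw [A5_kr, A5_kr]; exact hr₂ j x.2
    · simp only [A5_sum, A5_c, A5_i, Matrix.fromBlocks_apply₂₁, Matrix.fromBlocks_apply₂₂,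
        Matrix.zero_apply, Matrix.neg_apply, abs_neg, abs_zero, Finset.sum_const_zero, add_zero]
      rw [A5_kr, A5_kr]; exact hc₂ (n₂ j) x.2

private theorem A5_col {X₁ X₂ E₁ E₂ : Type} [Fintype X₁] [Fintype X₂]
    [DecidableEq X₁] [DecidableEq X₂]
    (c₁ : E₁ → Matrix X₁ X₁ ℤ) (c₂ : E₂ → Matrix X₂ X₂ ℤ) (n₁ : E₁ → E₁) (n₂ : E₂ → E₂)
    (ι₁ : X₁ → X₁) (ι₂ : X₂ → X₂)
    (hr₁ : ∀ i x, ∑ y, |c₁ i x y| + ∑ y, |c₁ i (ι₁ x) y| = 1)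
    (hr₂ : ∀ i x, ∑ y, |c₂ i x y| + ∑ y, |c₂ i (ι₂ x) y| = 1)
    (hc₁ : ∀ i y, ∑ x, |c₁ i x y| + ∑ x, |c₁ i x (ι₁ y)| = 1)
    (hc₂ : ∀ i y, ∑ x, |c₂ i x y| + ∑ x, |c₂ i x (ι₂ y)| = 1)
    (q : E₁ ⊕ E₂) (y : (X₁ × X₂) ⊕ (X₁ × X₂)) :
    ∑ x, |A5_c c₁ c₂ n₁ n₂ q x y| + ∑ x, |A5_c c₁ c₂ n₁ n₂ q x (A5_i ι₁ ι₂ y)| = 1 := by
  have hkl : ∀ (A : Matrix X₁ X₁ ℤ) (y : X₁ × X₂),
      ∑ x : X₁ × X₂, |Matrix.kroneckerMap (fun a b => a * b) A (1 : Matrix X₂ X₂ ℤ) x y| =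
        ∑ x, |A x y.1| := by
    intro A y
    have h := A5_kl (Y := X₂) Aᵀ y
    rw [← Matrix.transpose_one, Matrix.kroneckerMap_transpose] at h
    simpa only [Matrix.transpose_apply] using h
  have hkr : ∀ (A : Matrix X₂ X₂ ℤ) (y : X₁ × X₂),
      ∑ x : X₁ × X₂, |Matrix.kroneckerMap (fun a b => a * b) (1 : Matrix X₁ X₁ ℤ) A x y| =
        ∑ x, |A x y.2| := by
    intro A y
    have h := A5_kr (X := X₁) Aᵀ y
    rw [← Matrix.transpose_one, Matrix.kroneckerMap_transpose] at h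
    simpa only [Matrix.transpose_apply] using h
  rcases q with i | j
  · rcases y with y | y
    · simp only [A5_sum, A5_c, A5_i, Matrix.fromBlocks_apply₁₁, Matrix.fromBlocks_apply₂₁,
        Matrix.zero_apply, abs_zero, Finset.sum_const_zero, add_zero]
      rw [hkl, hkl]; exact hc₁ i y.1
    · simp only [A5_sum, A5_c, A5_i, Matrix.fromBlocks_apply₁₂, Matrix.fromBlocks_apply₂₂,
        Matrix.zero_apply, abs_zero, Finset.sum_const_zero, zero_add]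
      rw [hkl, hkl]; exact hr₁ (n₁ i) y.1
  · rcases y with y | y
    · simp only [A5_sum, A5_c, A5_i, Matrix.fromBlocks_apply₁₁, Matrix.fromBlocks_apply₂₁,
        Matrix.zero_apply, Matrix.neg_apply, abs_neg, abs_zero, Finset.sum_const_zero, zero_add]
      rw [hkr, hkr]; exact hr₂ (n₂ j) y.2
    · simp only [A5_sum, A5_c, A5_i, Matrix.fromBlocks_apply₁₂, Matrix.fromBlocks_apply₂₂,
        Matrix.zero_apply, abs_zero, Finset.sum_const_zero, add_zero]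
      rw [hkr, hkr]; exact hc₂ j y.2

private theorem A5_evT {X E : Type} [Fintype E] (p : E → ℤ) (c : E → Matrix X X ℤ)
    (n : E → E) (hn : ∀ i, p (n i) = - p i) (hinv : ∀ i, n (n i) = i) (z : ℚ) :
    ∑ i, z ^ p i • ((c (n i))ᵀ).map (Int.cast : ℤ → ℚ) = (ev p c z⁻¹)ᵀ := by
  unfold ev
  rw [Matrix.transpose_sum]
  have hb : Function.Bijective n := (show Function.Involutive n from hinv).bijective
  rw [← hb.sum_comp (fun i => (z⁻¹ ^ p i • (c i).map (Int.cast : ℤ → ℚ))ᵀ)]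
  refine Finset.sum_congr rfl fun i _ => ?_
  rw [Matrix.transpose_smul, hn, _root_.inv_zpow, _root_.zpow_neg, inv_inv, ← Matrix.transpose_map]

open Kronecker in
private theorem A5_ev {X₁ X₂ E₁ E₂ : Type} [DecidableEq X₁] [DecidableEq X₂]
    [Fintype E₁] [Fintype E₂] (p₁ : E₁ → ℤ) (p₂ : E₂ → ℤ)
    (c₁ : E₁ → Matrix X₁ X₁ ℤ) (c₂ : E₂ → Matrix X₂ X₂ ℤ) (n₁ : E₁ → E₁) (n₂ : E₂ → E₂)
    (hn₁ : ∀ i, p₁ (n₁ i) = - p₁ i) (hv₁ : ∀ i, n₁ (n₁ i) = i)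
    (hn₂ : ∀ i, p₂ (n₂ i) = - p₂ i) (hv₂ : ∀ i, n₂ (n₂ i) = i) (z : ℚ) :
    ev (Sum.elim p₁ p₂) (A5_c c₁ c₂ n₁ n₂) z =
      Matrix.fromBlocks (ev p₁ c₁ z ⊗ₖ (1 : Matrix X₂ X₂ ℚ)) ((1 : Matrix X₁ X₁ ℚ) ⊗ₖ ev p₂ c₂ z)
        (-((1 : Matrix X₁ X₁ ℚ) ⊗ₖ (ev p₂ c₂ z⁻¹)ᵀ)) ((ev p₁ c₁ z⁻¹)ᵀ ⊗ₖ (1 : Matrix X₂ X₂ ℚ)) := by
  rw [← A5_evT p₁ c₁ n₁ hn₁ hv₁, ← A5_evT p₂ c₂ n₂ hn₂ hv₂]
  unfold ev
  rw [Fintype.sum_sum_type]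
  ext a b
  have hone : ∀ {Y : Type} [DecidableEq Y] (x y : Y), (((1 : Matrix Y Y ℤ) x y : ℤ) : ℚ) =
      (1 : Matrix Y Y ℚ) x y := by
    intro Y _ x y
    by_cases h : x = y
    · subst h; simp
    · simp [Matrix.one_apply_ne h]
  rcases a with a | a <;> rcases b with b | b <;>
    simp only [Matrix.add_apply, Matrix.sum_apply, Matrix.smul_apply, Matrix.map_apply, A5_c,
      Matrix.fromBlocks_apply₁₁, Matrix.fromBlocks_apply₁₂, Matrix.fromBlocks_apply₂₁,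
      Matrix.fromBlocks_apply₂₂, Matrix.zero_apply, Matrix.neg_apply, Int.cast_zero, mul_zero,
      Finset.sum_const_zero, add_zero, zero_add, Matrix.kroneckerMap_apply, Int.cast_mul,
      Int.cast_neg, hone, Sum.elim_inl, Sum.elim_inr, smul_eq_mul, Finset.sum_mul,
      Finset.mul_sum, ← Finset.sum_neg_distrib] <;>
    refine Finset.sum_congr rfl fun i _ => ?_ <;> ring

private theorem A5_card {X E : Type} [Fintype X] [DecidableEq X] [Fintype E] (D : DF X E)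
    (S : Finset ℤ) (hS : ∀ e : ℤ, e ∈ S ↔ ∃ i, D.p i = e) (hne : S.Nonempty) :
    0 < Fintype.card E := by
  obtain ⟨e, he⟩ := hne
  obtain ⟨i, _⟩ := (hS e).1 he
  exact Fintype.card_pos_iff.2 ⟨i⟩

private theorem A5_neg {X E : Type} [Fintype X] [DecidableEq X] [Fintype E] (D : DF X E)
    (S : Finset ℤ) (hS : ∀ e : ℤ, e ∈ S ↔ ∃ i, D.p i = e) (hp : Function.Injective D.p)
    (hs : ∀ e ∈ S, -e ∈ S) :
    ∃ n : E → E, (∀ i, D.p (n i) = - D.p i) ∧ ∀ i, n (n i) = i := by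
  have h : ∀ i, ∃ j, D.p j = - D.p i := fun i =>
    (hS _).1 (hs _ ((hS _).2 ⟨i, rfl⟩))
  choose n hn using h
  exact ⟨n, hn, fun i => hp (by rw [hn, hn, neg_neg])⟩

open Kronecker in
theorem HasD.add {m₁ m₂ : ℕ} {S₁ S₂ : Finset ℤ} (h₁ : HasD m₁ S₁) (h₂ : HasD m₂ S₂)
    (hs₁ : ∀ e ∈ S₁, -e ∈ S₁) (hs₂ : ∀ e ∈ S₂, -e ∈ S₂) (hd : Disjoint S₁ S₂)
    (hne₁ : S₁.Nonempty) (hne₂ : S₂.Nonempty) :
    HasD (m₁ + m₂ + 1) (S₁ ∪ S₂) := by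
  obtain ⟨X₁, E₁, iX₁, dX₁, iE₁, D₁, hX₁, hp₁, hS₁⟩ := h₁
  obtain ⟨X₂, E₂, iX₂, dX₂, iE₂, D₂, hX₂, hp₂, hS₂⟩ := h₂
  obtain ⟨n₁, hn₁, hv₁⟩ := A5_neg D₁ S₁ hS₁ hp₁ hs₁
  obtain ⟨n₂, hn₂, hv₂⟩ := A5_neg D₂ S₂ hS₂ hp₂ hs₂
  have hc₁ := A5_card D₁ S₁ hS₁ hne₁
  have hc₂ := A5_card D₂ S₂ hS₂ hne₂
  refine ⟨(X₁ × X₂) ⊕ (X₁ × X₂), E₁ ⊕ E₂, inferInstance, inferInstance, inferInstance,
    { ι := A5_i D₁.ι D₂.ι
      ε := A5_e D₁.ε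
      p := Sum.elim D₁.p D₂.p
      c := A5_c D₁.c D₂.c n₁ n₂
      ι_ι := ?_
      ε_sq := ?_
      ε_ι := ?_
      row := A5_row D₁.c D₂.c n₁ n₂ D₁.ι D₂.ι D₁.row D₂.row D₁.col D₂.col
      col := A5_col D₁.c D₂.c n₁ n₂ D₁.ι D₂.ι D₁.row D₂.row D₁.col D₂.col
      orth := ?_ }, ?_, ?_, ?_⟩
  · rintro (x | x) <;> simp [A5_i, D₁.ι_ι, D₂.ι_ι]
  · rintro (x | x) <;> exact D₁.ε_sq x.1
  · rintro (x | x) <;> exact D₁.ε_ι x.1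
  · intro z hz
    rw [A5_ev D₁.p D₂.p D₁.c D₂.c n₁ n₂ hn₁ hv₁ hn₂ hv₂ z,
      A5_ev D₁.p D₂.p D₁.c D₂.c n₁ n₂ hn₁ hv₁ hn₂ hv₂ z⁻¹, inv_inv,
      Matrix.fromBlocks_transpose, Matrix.fromBlocks_multiply]
    have hz' : z⁻¹ ≠ 0 := inv_ne_zero hz
    have o₁ := D₁.orth z hz
    have o₂ := D₂.orth z hz
    have q₁ := ev_comm D₁ hc₁ z hz
    have q₂ := ev_comm D₂ hc₂ z hz
    have hcard : (Fintype.card (E₁ ⊕ E₂) : ℚ) / 2 =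
        (Fintype.card E₁ : ℚ) / 2 + (Fintype.card E₂ : ℚ) / 2 := by
      rw [Fintype.card_sum]; push_cast; ring
    simp only [Matrix.transpose_neg, ← Matrix.kroneckerMap_transpose, Matrix.transpose_transpose,
      Matrix.transpose_one, Matrix.neg_mul, Matrix.mul_neg, neg_neg, ← Matrix.mul_kronecker_mul,
      Matrix.one_mul, Matrix.mul_one, o₁, o₂, q₁, q₂, Matrix.smul_kronecker,
      Matrix.kronecker_smul, Matrix.one_kronecker_one, ← add_smul, neg_add_cancel, hcard]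
    rw [add_comm ((Fintype.card E₂ : ℚ) / 2), ← Matrix.fromBlocks_one, Matrix.fromBlocks_smul]
    simp only [smul_zero]
  · simp only [Fintype.card_sum, Fintype.card_prod, hX₁, hX₂]
    ring
  · rintro (i | i) (j | j) h
    · exact congrArg _ (hp₁ h)
    · exfalso
      have h' : D₁.p i = D₂.p j := h
      exact Finset.disjoint_left.1 hd ((hS₁ _).2 ⟨i, rfl⟩) ((hS₂ _).2 ⟨j, h'.symm⟩)
    · exfalso
      have h' : D₂.p i = D₁.p j := h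
      exact Finset.disjoint_left.1 hd ((hS₁ _).2 ⟨j, rfl⟩) ((hS₂ _).2 ⟨i, h'⟩)
    · exact congrArg _ (hp₂ h)
  · intro e
    rw [Finset.mem_union, hS₁, hS₂, Sum.exists]
    rfl

end Pool.Agent.HadL
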