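import Pool.Agent.HadL.Defs

set_option autoImplicit false

namespace Pool.Agent.HadL

open Matrix

theorem HasD.affine {m : ℕ} {S : Finset ℤ} (h : HasD m S) {k : ℤ} (hk : k ≠ 0) (t : ℤ) :
    HasD m (S.image (fun e => k * e + t)) := by
  obtain ⟨X, E, iX, dX, iE, D, hX, hp, hS⟩ := h
  have hev : ∀ z : ℚ, z ≠ 0 → ev (fun i => k * D.p i + t) D.c z = z ^ t • ev D.p D.c (z ^ k) := by
    intro z hz
    unfold ev
    rw [Finset.smul_sum]
    refine Finset.sum_congr rfl fun i _ => ?_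
    rw [smul_smul, _root_.zpow_add₀ hz, _root_.zpow_mul, mul_comm]
  refine ⟨X, E, iX, dX, iE,
    { ι := D.ι
      ε := D.ε
      p := fun i => k * D.p i + t
      c := D.c
      ι_ι := D.ι_ι
      ε_sq := D.ε_sq
      ε_ι := D.ε_ι
      row := D.row
      col := D.col
      orth := ?_ }, hX, ?_, ?_⟩
  · intro z hz
    have hz' : z⁻¹ ≠ 0 := inv_ne_zero hz
    rw [hev z hz, hev z⁻¹ hz', _root_.inv_zpow z k, Matrix.transpose_smul, Matrix.smul_mul,
      Matrix.mul_smul, smul_smul, D.orth (z ^ k) (_root_.zpow_ne_zero k hz), _root_.inv_zpow z t,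
      mul_inv_cancel₀ (_root_.zpow_ne_zero t hz), one_smul]
  · intro i j hij
    have hij : k * D.p i + t = k * D.p j + t := hij
    exact hp (mul_left_cancel₀ hk (by linarith))
  · intro e
    rw [Finset.mem_image]
    constructor
    · rintro ⟨f, hf, rfl⟩
      obtain ⟨i, rfl⟩ := (hS f).1 hf
      exact ⟨i, rfl⟩
    · rintro ⟨i, rfl⟩
      exact ⟨D.p i, (hS _).2 ⟨i, rfl⟩, rfl⟩

end Pool.Agent.HadL
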