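import Pool.Agent.HadL.Step

set_option autoImplicit false

namespace Pool.Agent.HadL

open Classical in
private theorem B6_card (P : ℕ → ℕ → Prop) (s L : ℕ)
    (h : ∀ i, i ≤ L → 8 * bad P s i ≤ 2 ^ i) (m : ℕ) (hm : m ≤ L + 1) :
    8 * ((Finset.Ico 1 (2 ^ m)).filter (fun n => ¬ P s n)).card ≤ 2 ^ m - 1 := by
  induction m with
  | zero => simp
  | succ m ih =>
    have h1 : Finset.Ico 1 (2 ^ (m + 1)) = Finset.Ico 1 (2 ^ m) ∪ Finset.Ico (2 ^ m) (2 ^ (m + 1)) := by
      rw [Finset.Ico_union_Ico_eq_Ico]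
      · exact Nat.one_le_two_pow
      · exact Nat.pow_le_pow_right (by norm_num) (by omega)
    rw [h1, Finset.filter_union]
    have h3 := Finset.card_union_le ((Finset.Ico 1 (2 ^ m)).filter (fun n => ¬ P s n))
      ((Finset.Ico (2 ^ m) (2 ^ (m + 1))).filter (fun n => ¬ P s n))
    have h2 : ((Finset.Ico (2 ^ m) (2 ^ (m + 1))).filter (fun n => ¬ P s n)).card = bad P s m := by
      unfold bad
      congr
    rw [h2] at h3
    have h4 := h m (by omega)
    have h5 := ih (by omega)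
    have h6 : 2 ^ (m + 1) = 2 * 2 ^ m := by ring
    have h7 : 1 ≤ 2 ^ m := Nat.one_le_two_pow
    omega

private theorem B6_pair {P : ℕ → ℕ → Prop} (s L : ℕ)
    (h : ∀ i, i ≤ L → 8 * bad P s i ≤ 2 ^ i) (N : ℕ) (hN : 2 ≤ N) (hNL : N ≤ 2 ^ L) :
    ∃ a b, 0 < a ∧ 0 < b ∧ a + b = N ∧ P s a ∧ P s b := by
  classical
  by_contra hcon
  push Not at hcon
  obtain ⟨m, hm1, hm2⟩ : ∃ m, 2 ^ m ≤ N ∧ N < 2 ^ (m + 1) :=
    ⟨Nat.log 2 N, Nat.pow_log_le_self 2 (by omega), Nat.lt_pow_succ_log_self (by norm_num) N⟩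
  have hmL : m ≤ L := by
    by_contra hlt
    have : 2 ^ (L + 1) ≤ 2 ^ m := Nat.pow_le_pow_right (by norm_num) (by omega)
    have h8 : 2 ^ (L + 1) = 2 * 2 ^ L := by ring
    have h9 : 1 ≤ 2 ^ L := Nat.one_le_two_pow
    omega
  set B := (Finset.Ico 1 (2 ^ (m + 1))).filter (fun n => ¬ P s n) with hB
  have hBc := B6_card P s L h (m + 1) (by omega)
  rw [← hB] at hBc
  have hcov : Finset.Ico 1 N ⊆ B ∪ B.image (fun b => N - b) := by
    intro a ha
    rw [Finset.mem_Ico] at ha
    rw [Finset.mem_union, Finset.mem_image]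
    by_cases hPa : P s a
    · right
      refine ⟨N - a, ?_, by omega⟩
      rw [hB, Finset.mem_filter, Finset.mem_Ico]
      exact ⟨by omega, hcon a (N - a) (by omega) (by omega) (by omega) hPa⟩
    · left
      rw [hB, Finset.mem_filter, Finset.mem_Ico]
      exact ⟨by omega, hPa⟩
  have hcard := Finset.card_le_card hcov
  rw [Nat.card_Ico] at hcard
  have h1 := Finset.card_union_le B (B.image (fun b => N - b))
  have h2 : (B.image (fun b => N - b)).card ≤ B.card := Finset.card_image_le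
  have h3 : 2 ^ (m + 1) = 2 * 2 ^ m := by ring
  omega

theorem Rules.all {P : ℕ → ℕ → Prop} (hP : Rules P) (s L : ℕ) (hs : 1 ≤ s)
    (h : ∀ i, i ≤ L → 8 * bad P s i ≤ 2 ^ i) :
    ∀ n, 0 < n → n < 2 ^ (L + 1) → P (2 * s + 3) n := by
  intro n hn hnL
  have hone : P s 1 := hP.mono hs hP.base
  have hdbl : ∀ {m a : ℕ}, 1 ≤ m → 0 < a → P m a → P m (2 * a) := by
    intro m a hm ha hPa
    have := hP.mul ha one_pos hPa (hP.mono hm hP.base)
    rwa [mul_one] at this
  have key : 2 ≤ n → P (2 * s + 1) (2 * (n / 2)) := by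
    intro h2
    rcases Nat.lt_or_ge (n / 2) 2 with hsm | hlg
    · have h3 : n / 2 = 1 := by omega
      rw [h3]
      exact hP.mono (by omega) (hdbl hs one_pos hone)
    · obtain ⟨a, b, ha, hb, hab, hPa, hPb⟩ := B6_pair (P := P) s L h (n / 2) hlg (by
        have : 2 ^ (L + 1) = 2 * 2 ^ L := by ring
        omega)
      have h4 := hP.add (by omega) hb (hdbl hs ha hPa) hPb
      have h5 : 2 * a + 2 * b = 2 * (n / 2) := by omega
      rw [h5] at h4
      exact hP.mono (by omega) h4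
  rcases Nat.lt_or_ge n 2 with hsm | hlg
  · have h3 : n = 1 := by omega
    rw [h3]
    exact hP.mono (by omega) hone
  · rcases Nat.mod_two_eq_zero_or_one n with h6 | h6
    · have h7 : 2 * (n / 2) = n := by omega
      have h8 := key hlg
      rw [h7] at h8
      exact hP.mono (by omega) h8
    · have h7 : 2 * (n / 2) + 1 = n := by omega
      rw [← h7]
      exact hP.mono (by omega) (hP.succ (by omega) (key hlg))

end Pool.Agent.HadL
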