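import Pool.Agent.HadL.Defs

set_option autoImplicit false

namespace Pool.Agent.HadL

/-- the scales of the chain -/
def scale (L₀ : ℕ) : ℕ → ℕ
  | 0 => L₀
  | j + 1 => (3 * scale L₀ j - 2) / 2

theorem scale_grow (L₀ : ℕ) (h : 20 ≤ L₀) (t : ℕ) : 2 ^ t * L₀ ≤ scale L₀ (2 * t) := by
  induction t with
  | zero => simp [scale]
  | succ t ih =>
    have h1 : L₀ ≤ 2 ^ t * L₀ := Nat.le_mul_of_pos_left _ (by positivity)
    have h2 : scale L₀ (2 * (t + 1)) = (3 * ((3 * scale L₀ (2 * t) - 2) / 2) - 2) / 2 := rfl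
    rw [h2, pow_succ]
    have h3 : 2 ^ t * 2 * L₀ = 2 * (2 ^ t * L₀) := by ring
    omega

end Pool.Agent.HadL
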