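import Pool.Agent.HadL.Step
import Pool.Agent.HadL.Scale

set_option autoImplicit false

namespace Pool.Agent.HadL

private theorem B5b_zero {P : ℕ → ℕ → Prop} (hP : Rules P) (w s m i : ℕ) (hws : w ≤ s)
    (hw : ∀ n, 0 < n → n < 2 ^ m → P w n) (hi : i + 1 ≤ m) : bad P s i = 0 := by
  classical
  unfold bad
  rw [Finset.card_eq_zero, Finset.filter_eq_empty_iff]
  intro n hn
  rw [Finset.mem_Ico] at hn
  rw [not_not]
  refine hP.mono hws (hw n (lt_of_lt_of_le (by positivity) hn.1) (lt_of_lt_of_le hn.2 ?_))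
  exact Nat.pow_le_pow_right (by norm_num) hi

private theorem B5b_geom (m : ℕ) : ∑ i ∈ Finset.range m, 2 ^ i ≤ 2 ^ m := by
  induction m with
  | zero => simp
  | succ m ih => rw [Finset.sum_range_succ, pow_succ]; omega

theorem Rules.chain {P : ℕ → ℕ → Prop} (hP : Rules P) (L ρ w : ℕ) (hw1 : 1 ≤ w)
    (hw : ∀ n, 0 < n → n < 2 ^ (3 * ρ + 21) → P w n) :
    ∀ j, 2 * (512 * (L + 4) * (16 ^ j - 1)) ≤ 2 ^ ρ →
      ∀ i, i ≤ scale (3 * ρ + 20) j → i ≤ L →
        2 ^ ρ * bad P (w + j * (w + 3)) i ≤ 512 * (L + 4) * (16 ^ j - 1) * 2 ^ i := by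
  intro j
  induction j with
  | zero =>
    intro _ i hi _
    simp only [scale] at hi
    rw [B5b_zero hP w (w + 0 * (w + 3)) (3 * ρ + 21) i (by omega) hw (by omega)]
    simp
  | succ j ih =>
    intro hA i hi hiL
    have h16 : 16 ^ (j + 1) = 16 * 16 ^ j := by ring
    have h16p : 1 ≤ 16 ^ j := Nat.one_le_pow _ _ (by norm_num)
    have hAj : 2 * (512 * (L + 4) * (16 ^ j - 1)) ≤ 2 ^ ρ := by
      refine le_trans ?_ hA
      have : 16 ^ j - 1 ≤ 16 ^ (j + 1) - 1 := by omega
      gcongr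
    rcases Nat.lt_or_ge i (3 * ρ + 21) with hsm | hlg
    · rw [B5b_zero hP w (w + (j + 1) * (w + 3)) (3 * ρ + 21) i (by nlinarith) hw (by omega)]
      simp
    · set k := i / 3 with hk
      set s := w + j * (w + 3) with hs
      have hkρ : ρ + 7 ≤ k := by omega
      have hki : 3 * k ≤ i := by omega
      simp only [scale] at hi
      have hGk : 2 * bad P s k ≤ 2 ^ k := by
        have h1 := ih hAj k (by omega) (by omega)
        have h2 : 2 ^ ρ * (2 * bad P s k) ≤ 2 ^ ρ * 2 ^ k := by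
          calc 2 ^ ρ * (2 * bad P s k) = 2 * (2 ^ ρ * bad P s k) := by ring
            _ ≤ 2 * (512 * (L + 4) * (16 ^ j - 1) * 2 ^ k) := by gcongr
            _ = (2 * (512 * (L + 4) * (16 ^ j - 1))) * 2 ^ k := by ring
            _ ≤ 2 ^ ρ * 2 ^ k := by gcongr
        exact Nat.le_of_mul_le_mul_left h2 (by positivity)
      have hst := hP.step s w ρ k i (by omega) hki (by omega) (by omega)
        (fun r h0 hr => hw r h0 (lt_of_lt_of_le hr (Nat.pow_le_pow_right (by norm_num) (by omega)))) hGk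
      have hsw : s + w + 3 = w + (j + 1) * (w + 3) := by rw [hs]; ring
      rw [hsw] at hst
      refine le_trans hst ?_
      have hsum : 2 ^ ρ * ∑ i' ∈ Finset.range (i - k), bad P s i' ≤
          512 * (L + 4) * (16 ^ j - 1) * 2 ^ (i - k) := by
        rw [Finset.mul_sum]
        calc ∑ i' ∈ Finset.range (i - k), 2 ^ ρ * bad P s i'
            ≤ ∑ i' ∈ Finset.range (i - k), 512 * (L + 4) * (16 ^ j - 1) * 2 ^ i' := by
              refine Finset.sum_le_sum fun i' hi' => ?_
              rw [Finset.mem_range] at hi'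
              exact ih hAj i' (by omega) (by omega)
          _ = 512 * (L + 4) * (16 ^ j - 1) * ∑ i' ∈ Finset.range (i - k), 2 ^ i' := by
              rw [Finset.mul_sum]
          _ ≤ _ := by
              gcongr
              exact B5b_geom _
      have hpi : 2 ^ k * 2 ^ (i - k) = 2 ^ i := by
        rw [← pow_add]
        congr 1
        omega
      have t3 : 16 * 2 ^ ρ * 2 ^ k * ∑ i' ∈ Finset.range (i - k), bad P s i' ≤
          16 * (512 * (L + 4) * (16 ^ j - 1)) * 2 ^ i := by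
        calc 16 * 2 ^ ρ * 2 ^ k * ∑ i' ∈ Finset.range (i - k), bad P s i'
            = 16 * 2 ^ k * (2 ^ ρ * ∑ i' ∈ Finset.range (i - k), bad P s i') := by ring
          _ ≤ 16 * 2 ^ k * (512 * (L + 4) * (16 ^ j - 1) * 2 ^ (i - k)) := by gcongr
          _ = 16 * (512 * (L + 4) * (16 ^ j - 1)) * (2 ^ k * 2 ^ (i - k)) := by ring
          _ = _ := by rw [hpi]
      have t2 : 768 * 2 ^ ρ * 4 ^ k ≤ 6 * 2 ^ i := by
        have h1 : 2 ^ ρ * 128 ≤ 2 ^ k := by
          have : 2 ^ ρ * 128 = 2 ^ (ρ + 7) := by rw [pow_add]; norm_num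
          rw [this]
          exact Nat.pow_le_pow_right (by norm_num) hkρ
        have h2 : 2 ^ k * 4 ^ k ≤ 2 ^ i := by
          have : 2 ^ k * 4 ^ k = 2 ^ (3 * k) := by
            rw [show (4 : ℕ) = 2 ^ 2 by norm_num, ← pow_mul, ← pow_add]
            congr 1
            ring
          rw [this]
          exact Nat.pow_le_pow_right (by norm_num) hki
        calc 768 * 2 ^ ρ * 4 ^ k = 6 * ((2 ^ ρ * 128) * 4 ^ k) := by ring
          _ ≤ 6 * (2 ^ k * 4 ^ k) := by gcongr
          _ ≤ 6 * 2 ^ i := by gcongr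
      have t1 : 512 * (k + 2) * 2 ^ i ≤ 512 * (L + 2) * 2 ^ i := by
        gcongr
        omega
      obtain ⟨A, hAd⟩ : ∃ A, 16 ^ j = A + 1 := ⟨16 ^ j - 1, by omega⟩
      have hR : 512 * (L + 4) * (16 ^ (j + 1) - 1) * 2 ^ i =
          16 * (512 * (L + 4) * (16 ^ j - 1)) * 2 ^ i + 15 * (512 * (L + 4)) * 2 ^ i := by
        rw [h16, hAd]
        have : 16 * (A + 1) - 1 = 16 * A + 15 := by omega
        rw [this, Nat.add_sub_cancel]
        ring
      rw [hR]
      have : 512 * (L + 2) * 2 ^ i + 6 * 2 ^ i ≤ 15 * (512 * (L + 4)) * 2 ^ i := by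
        rw [← Nat.add_mul]
        gcongr
        omega
      omega

end Pool.Agent.HadL
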