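import Pool.Agent.HadL.Defs

set_option autoImplicit false

namespace Pool.Agent.HadL

open Matrix

open Polynomial in
private theorem A6a_coeff {Q : Type} [Fintype Q] (e : Q → ℤ) (a : Q → ℚ)
    (h : ∀ z : ℚ, z ≠ 0 → ∑ q, z ^ e q * a q = 0) (s : ℤ) :
    ∑ q, (if e q = s then a q else 0) = 0 := by
  classical
  obtain ⟨N, hN⟩ : ∃ N : ℤ, (∀ q, 0 ≤ e q + N) ∧ 0 ≤ s + N := by
    refine ⟨∑ q, |e q| + |s|, ?_, ?_⟩
    · intro q
      have h1 : |e q| ≤ ∑ q, |e q| :=
        Finset.single_le_sum (f := fun q => |e q|) (fun _ _ => abs_nonneg _) (Finset.mem_univ q)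
      have h2 := neg_abs_le (e q)
      have h3 := abs_nonneg s
      linarith
    · have h1 : 0 ≤ ∑ q, |e q| := Finset.sum_nonneg fun _ _ => abs_nonneg _
      have h2 := neg_abs_le s
      linarith
  obtain ⟨hN, hs⟩ := hN
  let f : ℚ[X] := ∑ q, monomial (e q + N).toNat (a q)
  have hf : f = 0 := by
    apply Polynomial.eq_zero_of_infinite_isRoot
    refine Set.Infinite.mono (s := {z : ℚ | z ≠ 0}) ?_ ?_
    · intro z hz
      have hz : z ≠ 0 := hz
      show f.eval z = 0
      have h1 : f.eval z = ∑ q, a q * z ^ (e q + N).toNat := by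
        simp only [f, Polynomial.eval_finsetSum, Polynomial.eval_monomial]
      rw [h1]
      have h2 : ∀ q, a q * z ^ (e q + N).toNat = z ^ N * (z ^ e q * a q) := by
        intro q
        have h3 : z ^ (e q + N).toNat = z ^ (e q + N) := by
          rw [← zpow_natCast, Int.toNat_of_nonneg (hN q)]
        rw [h3, _root_.zpow_add₀ hz]; ring
      rw [Finset.sum_congr rfl fun q _ => h2 q, ← Finset.mul_sum, h z hz, mul_zero]
    · exact (Set.finite_singleton (0 : ℚ)).infinite_compl
  have h1 : f.coeff (s + N).toNat = ∑ q, (if e q = s then a q else 0) := by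
    simp only [f, Polynomial.finsetSum_coeff, Polynomial.coeff_monomial]
    refine Finset.sum_congr rfl fun q _ => ?_
    have h2 : (e q + N).toNat = (s + N).toNat ↔ e q = s := by
      have := hN q
      constructor
      · intro h; omega
      · intro h; rw [h]
    by_cases h3 : e q = s
    · rw [if_pos (h2.2 h3), if_pos h3]
    · rw [if_neg (fun h => h3 (h2.1 h)), if_neg h3]
  rw [← h1, hf, Polynomial.coeff_zero]

theorem DF.corr {X E : Type} [Fintype X] [DecidableEq X] [Fintype E] (D : DF X E) (s : ℤ) :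
    (2 : ℤ) • ∑ q : E × E, (if D.p q.1 - D.p q.2 = s then D.c q.1 * (D.c q.2)ᵀ else 0) =
      if s = 0 then (Fintype.card E : ℤ) • (1 : Matrix X X ℤ) else 0 := by
  classical
  ext x y
  -- the terms: the pairs `q`, and one constant term
  let e : Option (E × E) → ℤ := fun o => o.elim 0 (fun q => D.p q.1 - D.p q.2)
  let a : Option (E × E) → ℚ := fun o => o.elim
    (-((Fintype.card E : ℚ) / 2 * (1 : Matrix X X ℚ) x y))
    (fun q => (((D.c q.1 * (D.c q.2)ᵀ) x y : ℤ) : ℚ))
  have h := A6a_coeff e a (fun z hz => by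
    have h1 := congrFun (congrFun (D.orth z hz) x) y
    rw [Fintype.sum_option]
    have h2 : ∑ q : E × E, z ^ e (some q) * a (some q) =
        (ev D.p D.c z * (ev D.p D.c z⁻¹)ᵀ) x y := by
      unfold ev
      rw [Matrix.transpose_sum, Matrix.sum_mul, Matrix.sum_apply, Fintype.sum_prod_type]
      refine Finset.sum_congr rfl fun i _ => ?_
      rw [Matrix.mul_sum, Matrix.sum_apply]
      refine Finset.sum_congr rfl fun j _ => ?_
      have h3 : e (some (i, j)) = D.p i - D.p j := rfl
      have h4 : a (some (i, j)) = (((D.c i * (D.c j)ᵀ) x y : ℤ) : ℚ) := rfl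
      rw [h3, h4, Matrix.transpose_smul, Matrix.smul_mul, Matrix.mul_smul, smul_smul,
        Matrix.smul_apply, smul_eq_mul, _root_.inv_zpow, ← _root_.zpow_neg, ← _root_.zpow_add₀ hz,
        ← sub_eq_add_neg]
      congr 1
      simp only [Matrix.mul_apply, Matrix.transpose_apply, Matrix.map_apply]
      push_cast
      rfl
    have h5 : z ^ e none * a none = -((Fintype.card E : ℚ) / 2 * (1 : Matrix X X ℚ) x y) := by
      show z ^ (0 : ℤ) * _ = _
      rw [zpow_zero, one_mul]; rfl
    rw [h2, h5, h1, Matrix.smul_apply, smul_eq_mul]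
    ring) s
  rw [Fintype.sum_option] at h
  have h6 : ∑ q : E × E, (if e (some q) = s then a (some q) else 0) =
      (((∑ q : E × E, (if D.p q.1 - D.p q.2 = s then D.c q.1 * (D.c q.2)ᵀ else 0)) x y : ℤ) :
        ℚ) := by
    rw [Matrix.sum_apply]
    push_cast
    refine Finset.sum_congr rfl fun q _ => ?_
    have h3 : e (some q) = D.p q.1 - D.p q.2 := rfl
    rw [h3]
    by_cases h7 : D.p q.1 - D.p q.2 = s
    · rw [if_pos h7, if_pos h7]; rfl
    · rw [if_neg h7, if_neg h7]; simp
  rw [h6] at h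
  have h7 : e none = 0 := rfl
  have h8 : a none = -((Fintype.card E : ℚ) / 2 * (1 : Matrix X X ℚ) x y) := rfl
  rw [h7, h8] at h
  rw [Matrix.smul_apply]
  set M := (∑ q : E × E, (if D.p q.1 - D.p q.2 = s then D.c q.1 * (D.c q.2)ᵀ else 0)) x y
  have hone : (((1 : Matrix X X ℤ) x y : ℤ) : ℚ) = (1 : Matrix X X ℚ) x y := by
    by_cases h : x = y
    · subst h; simp
    · simp [Matrix.one_apply_ne h]
  have h9 : (((2 : ℤ) * M : ℤ) : ℚ) =
      (((if s = 0 then (Fintype.card E : ℤ) • (1 : Matrix X X ℤ) else 0) x y : ℤ) : ℚ) := by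
    by_cases hs : s = 0
    · rw [if_pos hs.symm] at h
      rw [if_pos hs, Matrix.smul_apply, smul_eq_mul]
      push_cast
      rw [hone]
      linarith
    · rw [if_neg (Ne.symm hs)] at h
      rw [if_neg hs]
      push_cast
      have : ((0 : Matrix X X ℤ) x y : ℤ) = 0 := rfl
      rw [this]
      have h10 : (M : ℚ) = 0 := by linarith
      simp [h10]
  exact_mod_cast h9

end Pool.Agent.HadL
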