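import Pool.Agent.HadL.Gcd

set_option autoImplicit false

namespace Pool.Agent.HadL

open Finset in
theorem cover (k i R : ℕ) (hki : 3 * k ≤ i) (hR : 1 ≤ R) (hRk : R ≤ 2 ^ k) (G B : Finset ℕ)
    (hG : G ⊆ Finset.Ico (2 ^ k) (2 ^ (k + 1))) (hGc : 2 ^ k ≤ 2 * G.card) :
    R * ((Finset.Ico (2 ^ i) (2 ^ (i + 1))).filter
        (fun n => ∀ c ∈ G, n % (2 * c) < R → n / (2 * c) ∈ B)).card ≤
      512 * (k + 2) * 2 ^ i + 768 * R * 4 ^ k + 16 * R * 2 ^ k * B.card := by
  classical
  obtain ⟨X, hX⟩ : ∃ X : ℕ, X = 2 ^ i := ⟨_, rfl⟩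
  obtain ⟨C, hC⟩ : ∃ C : ℕ, C = 2 ^ k := ⟨_, rfl⟩
  have hX2 : 2 ^ (i + 1) = 2 * X := by rw [hX, pow_succ]; ring
  have hC2 : 2 ^ (k + 1) = 2 * C := by rw [hC, pow_succ]; ring
  have h4 : 4 ^ k = C * C := by
    rw [hC, ← mul_pow]
    norm_num
  rw [hX2, ← hX, ← hC, h4]
  rw [hC2, ← hC] at hG
  rw [← hC] at hGc hRk
  have hCpos : 0 < C := by rw [hC]; positivity
  have hGcard : G.card ≤ C := by
    have := Finset.card_le_card hG
    rw [Nat.card_Ico] at this
    omega
  have hGm : ∀ c ∈ G, C ≤ c ∧ c < 2 * C := fun c hc => Finset.mem_Ico.1 (hG hc)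
  -- the counting function
  let N : ℕ → ℚ := fun n => ∑ c ∈ G, if n % (2 * c) < R then (1 : ℚ) else 0
  let I : Finset ℕ := Finset.Ico X (2 * X)
  let S : ℚ := ∑ c ∈ G, (1 : ℚ) / c
  let μ : ℚ := R * S / 2
  have hRq : (1 : ℚ) ≤ R := by exact_mod_cast hR
  have hCq : (1 : ℚ) ≤ C := by exact_mod_cast hCpos
  have hXq : (0 : ℚ) ≤ X := by positivity
  have hGcq : (G.card : ℚ) ≤ C := by exact_mod_cast hGcard
  have hIcard : (I.card : ℚ) = X := by
    simp only [I, Nat.card_Ico]
    rw [show 2 * X - X = X by omega]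
  have hScard : S ≤ G.card / C := by
    have : S ≤ ∑ c ∈ G, (1 : ℚ) / C := by
      apply Finset.sum_le_sum
      intro c hc
      have h1 := (hGm c hc).1
      have h2 : (C : ℚ) ≤ c := by exact_mod_cast h1
      exact one_div_le_one_div_of_le (by linarith) h2
    rw [Finset.sum_const, nsmul_eq_mul] at this
    calc S ≤ _ := this
      _ = G.card / C := by ring
  have hS1 : S ≤ 1 := by
    refine hScard.trans ?_
    rw [div_le_one (by linarith)]
    exact hGcq
  have hSlow : (1 : ℚ) / 4 ≤ S := by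
    have h1 : ∑ c ∈ G, (1 : ℚ) / (2 * C) ≤ S := by
      apply Finset.sum_le_sum
      intro c hc
      obtain ⟨h0, h1⟩ := hGm c hc
      have h2 : (c : ℚ) ≤ 2 * C := by exact_mod_cast h1.le
      have h3 : (0 : ℚ) < c := by exact_mod_cast lt_of_lt_of_le hCpos h0
      exact one_div_le_one_div_of_le h3 h2
    rw [Finset.sum_const, nsmul_eq_mul] at h1
    refine le_trans ?_ h1
    have h5 : (C : ℚ) ≤ 2 * G.card := by exact_mod_cast hGc
    rw [mul_one_div, div_le_div_iff₀ (by norm_num) (by linarith)]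
    linarith
  have hμlow : (R : ℚ) / 8 ≤ μ := by
    have : (R : ℚ) * (1 / 4) ≤ R * S := mul_le_mul_of_nonneg_left hSlow (by linarith)
    simp only [μ]; linarith
  have hμup : μ ≤ R / 2 := by
    have : (R : ℚ) * S ≤ R * 1 := mul_le_mul_of_nonneg_left hS1 (by linarith)
    simp only [μ]; linarith
  have hμ0 : 0 ≤ μ := by linarith
  -- first moment
  have hN1 : μ * X - R * C ≤ ∑ n ∈ I, N n := by
    have h1 : ∑ n ∈ I, N n = ∑ c ∈ G, ((I.filter (fun n => n % (2 * c) < R)).card : ℚ) := by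
      simp only [N]
      rw [Finset.sum_comm]
      apply Finset.sum_congr rfl
      intro c _
      rw [Finset.card_filter]
      push_cast
      rfl
    rw [h1]
    have h2 : ∑ c ∈ G, ((R : ℚ) * X / (2 * c) - R) ≤
        ∑ c ∈ G, ((I.filter (fun n => n % (2 * c) < R)).card : ℚ) := by
      apply Finset.sum_le_sum
      intro c hc
      have h0 := (hGm c hc).1
      exact count_one X c R (lt_of_lt_of_le hCpos h0) (by omega)
    refine le_trans ?_ h2
    rw [Finset.sum_sub_distrib, Finset.sum_const, nsmul_eq_mul]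
    have h3 : ∑ c ∈ G, ((R : ℚ) * X / (2 * c)) = μ * X := by
      simp only [μ, S]
      rw [Finset.mul_sum, Finset.sum_div, Finset.sum_mul]
      apply Finset.sum_congr rfl
      intro c _
      ring
    rw [h3]
    have h4 : (G.card : ℚ) * R ≤ R * C := by nlinarith
    linarith
  -- second moment
  have hN2 : ∑ n ∈ I, N n ^ 2 ≤ μ ^ 2 * X + 2 * R * X * (k + 2) + C ^ 2 * (R ^ 2 + R) := by
    have h1 : ∑ n ∈ I, N n ^ 2 = ∑ c ∈ G, ∑ c' ∈ G,
        ((I.filter (fun n => n % (2 * c) < R ∧ n % (2 * c') < R)).card : ℚ) := by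
      simp only [N, sq, Finset.sum_mul_sum]
      rw [Finset.sum_comm]
      apply Finset.sum_congr rfl
      intro c _
      rw [Finset.sum_comm]
      apply Finset.sum_congr rfl
      intro c' _
      rw [Finset.card_filter]
      push_cast
      apply Finset.sum_congr rfl
      intro n _
      by_cases h1 : n % (2 * c) < R <;> by_cases h2 : n % (2 * c') < R <;> simp [h1, h2]
    rw [h1]
    have h2 : ∑ c ∈ G, ∑ c' ∈ G,
        ((I.filter (fun n => n % (2 * c) < R ∧ n % (2 * c') < R)).card : ℚ) ≤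
        ∑ c ∈ G, ∑ c' ∈ G, ((R : ℚ) ^ 2 * X / (4 * c * c') +
          R * X / (2 * C ^ 2) * (Nat.gcd c c') + ((R : ℚ) ^ 2 + R)) := by
      apply Finset.sum_le_sum
      intro c hc
      apply Finset.sum_le_sum
      intro c' hc'
      have h0 := (hGm c hc).1
      have h0' := (hGm c' hc').1
      have h3 := count_two X c c' R (lt_of_lt_of_le hCpos h0) (lt_of_lt_of_le hCpos h0')
      refine h3.trans ?_
      have hc1 : (C : ℚ) ≤ c := by exact_mod_cast h0
      have hc2 : (C : ℚ) ≤ c' := by exact_mod_cast h0'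
      have h4 : (R : ℚ) * X * (Nat.gcd c c') / (2 * c * c') ≤ R * X / (2 * C ^ 2) * (Nat.gcd c c') := by
        rw [div_mul_eq_mul_div]
        apply div_le_div_of_nonneg_left (by positivity) (by positivity)
        have : (C : ℚ) * C ≤ c * c' := by
          apply mul_le_mul hc1 hc2 (by linarith) (by linarith)
        nlinarith
      linarith
    refine h2.trans ?_
    have h3 : ∑ c ∈ G, ∑ c' ∈ G, ((R : ℚ) ^ 2 * X / (4 * c * c')) = μ ^ 2 * X := by
      have : μ ^ 2 * X = (R : ℚ) ^ 2 * X / 4 * ((∑ c ∈ G, (1 : ℚ) / c) * (∑ c ∈ G, (1 : ℚ) / c)) := by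
        simp only [μ, S]; ring
      rw [this, Finset.sum_mul_sum, Finset.mul_sum]
      apply Finset.sum_congr rfl
      intro c hc
      rw [Finset.mul_sum]
      apply Finset.sum_congr rfl
      intro c' hc'
      have h0 : (0 : ℚ) < c := by exact_mod_cast lt_of_lt_of_le hCpos (hGm c hc).1
      have h0' : (0 : ℚ) < c' := by exact_mod_cast lt_of_lt_of_le hCpos (hGm c' hc').1
      field_simp
    have h4 : ∑ c ∈ G, ∑ c' ∈ G, (R * X / (2 * C ^ 2) * (Nat.gcd c c') : ℚ) ≤ 2 * R * X * (k + 2) := by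
      have h5 : ∑ c ∈ G, ∑ c' ∈ G, Nat.gcd c c' ≤ 4 * (C * C) * (k + 2) := by
        calc ∑ c ∈ G, ∑ c' ∈ G, Nat.gcd c c' ≤ ∑ c ∈ G, ∑ c' ∈ Finset.Ico C (2 * C), Nat.gcd c c' := by
              apply Finset.sum_le_sum
              intro c _
              exact Finset.sum_le_sum_of_subset hG
          _ ≤ ∑ c ∈ Finset.Ico C (2 * C), ∑ c' ∈ Finset.Ico C (2 * C), Nat.gcd c c' :=
              Finset.sum_le_sum_of_subset hG
          _ ≤ 4 * (C * C) * (k + 2) := by
              have := gcd_sum k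
              rw [hC2, ← hC, h4] at this
              exact this
      have h6 : ∑ c ∈ G, ∑ c' ∈ G, (Nat.gcd c c' : ℚ) ≤ 4 * (C * C) * (k + 2) := by
        exact_mod_cast h5
      have h7 : ∑ c ∈ G, ∑ c' ∈ G, (R * X / (2 * C ^ 2) * (Nat.gcd c c') : ℚ) =
          R * X / (2 * C ^ 2) * ∑ c ∈ G, ∑ c' ∈ G, (Nat.gcd c c' : ℚ) := by
        rw [Finset.mul_sum]
        apply Finset.sum_congr rfl
        intro c _
        rw [Finset.mul_sum]
      rw [h7]
      calc (R : ℚ) * X / (2 * C ^ 2) * ∑ c ∈ G, ∑ c' ∈ G, (Nat.gcd c c' : ℚ)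
          ≤ R * X / (2 * C ^ 2) * (4 * (C * C) * (k + 2)) :=
            mul_le_mul_of_nonneg_left h6 (by positivity)
        _ = 2 * R * X * (k + 2) := by
            have : (C : ℚ) ≠ 0 := by linarith
            field_simp
            ring
    have h5 : ∑ c ∈ G, ∑ c' ∈ G, ((R : ℚ) ^ 2 + R) ≤ C ^ 2 * (R ^ 2 + R) := by
      rw [Finset.sum_const, Finset.sum_const, nsmul_eq_mul, nsmul_eq_mul]
      have : (G.card : ℚ) * G.card ≤ C ^ 2 := by nlinarith [(Nat.cast_nonneg G.card : (0:ℚ) ≤ G.card)]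
      have h8 : (0 : ℚ) ≤ R ^ 2 + R := by positivity
      nlinarith
    have h6 : ∑ c ∈ G, ∑ c' ∈ G, ((R : ℚ) ^ 2 * X / (4 * c * c') +
          R * X / (2 * C ^ 2) * (Nat.gcd c c') + ((R : ℚ) ^ 2 + R)) =
        ∑ c ∈ G, ∑ c' ∈ G, ((R : ℚ) ^ 2 * X / (4 * c * c')) +
        ∑ c ∈ G, ∑ c' ∈ G, (R * X / (2 * C ^ 2) * (Nat.gcd c c') : ℚ) +
        ∑ c ∈ G, ∑ c' ∈ G, ((R : ℚ) ^ 2 + R) := by
      simp only [Finset.sum_add_distrib]
    rw [h6, h3]
    linarith
  -- variance
  have hvar : ∑ n ∈ I, (N n - μ) ^ 2 ≤ 2 * R * X * (k + 2) + 3 * C ^ 2 * R ^ 2 := by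
    have h1 : ∑ n ∈ I, (N n - μ) ^ 2 = ∑ n ∈ I, N n ^ 2 - 2 * μ * ∑ n ∈ I, N n + μ ^ 2 * X := by
      rw [← hIcard]
      have : ∀ n, (N n - μ) ^ 2 = N n ^ 2 - 2 * μ * N n + μ ^ 2 := fun n => by ring
      simp only [this]
      rw [Finset.sum_add_distrib, Finset.sum_sub_distrib, ← Finset.mul_sum, Finset.sum_const,
        nsmul_eq_mul]
      ring
    rw [h1]
    have h2 : 2 * μ * (μ * X - R * C) ≤ 2 * μ * ∑ n ∈ I, N n :=
      mul_le_mul_of_nonneg_left hN1 (by linarith)
    have h3 : μ * (R * C) ≤ R / 2 * (R * C) := mul_le_mul_of_nonneg_right hμup (by positivity)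
    have h4 : (R : ℚ) ^ 2 * C ≤ C ^ 2 * R ^ 2 := by
      have : (C : ℚ) ≤ C ^ 2 := by nlinarith
      nlinarith [sq_nonneg (R : ℚ)]
    have h5 : (C : ℚ) ^ 2 * R ≤ C ^ 2 * R ^ 2 := by
      have : (R : ℚ) ≤ R ^ 2 := by nlinarith
      exact mul_le_mul_of_nonneg_left this (by positivity)
    have e1 : 2 * μ * (μ * X - R * C) = 2 * (μ ^ 2 * X) - 2 * (μ * (R * C)) := by ring
    have e2 : (R : ℚ) / 2 * (R * C) = (R ^ 2 * C) / 2 := by ring
    have e3 : (C : ℚ) ^ 2 * (R ^ 2 + R) = C ^ 2 * R ^ 2 + C ^ 2 * R := by ring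
    rw [e1] at h2
    rw [e2] at h3
    rw [e3] at hN2
    have e4 : (3 : ℚ) * C ^ 2 * R ^ 2 = 3 * (C ^ 2 * R ^ 2) := by ring
    rw [e4]
    linarith
  -- the uncovered set
  let U : Finset ℕ := I.filter (fun n => ∀ c ∈ G, n % (2 * c) < R → n / (2 * c) ∈ B)
  let U1 : Finset ℕ := U.filter (fun n => N n < μ / 2)
  let U2 : Finset ℕ := U.filter (fun n => ¬ N n < μ / 2)
  have hU : U.card = U1.card + U2.card := (Finset.card_filter_add_card_filter_not _).symm
  have hU1 : (R : ℚ) * U1.card ≤ 512 * (k + 2) * X + 768 * R * (C * C) := by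
    have h1 : (U1.card : ℚ) * (R ^ 2 / 256) ≤ ∑ n ∈ I, (N n - μ) ^ 2 := by
      calc (U1.card : ℚ) * (R ^ 2 / 256) = ∑ n ∈ U1, ((R : ℚ) ^ 2 / 256) := by
            rw [Finset.sum_const, nsmul_eq_mul]
        _ ≤ ∑ n ∈ U1, (N n - μ) ^ 2 := by
            apply Finset.sum_le_sum
            intro n hn
            have h2 : N n < μ / 2 := (Finset.mem_filter.1 hn).2
            have h3 : (R : ℚ) / 16 ≤ μ - N n := by linarith
            have h4 : (0 : ℚ) ≤ R / 16 := by positivity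
            nlinarith
        _ ≤ ∑ n ∈ I, (N n - μ) ^ 2 := by
            apply Finset.sum_le_sum_of_subset_of_nonneg
            · intro n hn
              exact (Finset.mem_filter.1 (Finset.mem_filter.1 hn).1).1
            · intro n _ _
              positivity
    have h2 := h1.trans hvar
    have h3 : (R : ℚ) * ((R : ℚ) * U1.card) ≤ R * (512 * (k + 2) * X + 768 * R * (C * C)) := by
      nlinarith
    exact le_of_mul_le_mul_left h3 (by linarith)
  have hU2 : (U2.card : ℚ) ≤ 16 * C * B.card := by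
    have h1 : (U2.card : ℚ) * (R / 16) ≤ ∑ n ∈ U2, N n := by
      calc (U2.card : ℚ) * (R / 16) = ∑ n ∈ U2, ((R : ℚ) / 16) := by
            rw [Finset.sum_const, nsmul_eq_mul]
        _ ≤ ∑ n ∈ U2, N n := by
            apply Finset.sum_le_sum
            intro n hn
            have h2 : ¬ N n < μ / 2 := (Finset.mem_filter.1 hn).2
            push Not at h2
            linarith
    have h2 : ∑ n ∈ U2, N n ≤ ∑ c ∈ G, ((B.card * R : ℕ) : ℚ) := by
      simp only [N]
      rw [Finset.sum_comm]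
      apply Finset.sum_le_sum
      intro c hc
      have h3 : ∑ n ∈ U2, (if n % (2 * c) < R then (1 : ℚ) else 0) =
          ((U2.filter (fun n => n % (2 * c) < R)).card : ℚ) := by
        rw [Finset.card_filter]; push_cast; rfl
      rw [h3]
      have h4 : (U2.filter (fun n => n % (2 * c) < R)).card ≤ (B ×ˢ Finset.range R).card := by
        apply Finset.card_le_card_of_injOn (fun n => (n / (2 * c), n % (2 * c)))
        · intro n hn
          have hn' := Finset.mem_filter.1 (Finset.mem_coe.1 hn)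
          have hU' := Finset.mem_filter.1 (Finset.mem_filter.1 hn'.1).1
          simp only [Finset.coe_product, Set.mem_prod, Finset.mem_coe, Finset.mem_range]
          exact ⟨hU'.2 c hc hn'.2, hn'.2⟩
        · intro n _ n' _ h
          have h5 := (Prod.mk.inj h).1
          have h6 := (Prod.mk.inj h).2
          rw [← Nat.div_add_mod n (2 * c), ← Nat.div_add_mod n' (2 * c), h5, h6]
      rw [Finset.card_product, Finset.card_range] at h4
      exact_mod_cast h4
    rw [Finset.sum_const, nsmul_eq_mul] at h2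
    push_cast at h2
    have h5 : (G.card : ℚ) * (B.card * R) ≤ C * (B.card * R) :=
      mul_le_mul_of_nonneg_right hGcq (by positivity)
    have h6 : (U2.card : ℚ) * (R / 16) ≤ C * (B.card * R) := by linarith
    have h7 : (R : ℚ) * U2.card ≤ R * (16 * C * B.card) := by nlinarith
    exact le_of_mul_le_mul_left h7 (by linarith)
  have hfin : (R : ℚ) * U.card ≤ 512 * (k + 2) * X + 768 * R * (C * C) + 16 * R * C * B.card := by
    rw [hU]
    push_cast
    have : (R : ℚ) * U2.card ≤ R * (16 * C * B.card) := mul_le_mul_of_nonneg_left hU2 (by linarith)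
    nlinarith
  have hgoal : R * U.card ≤ 512 * (k + 2) * X + 768 * R * (C * C) + 16 * R * C * B.card := by
    exact_mod_cast hfin
  exact hgoal

end Pool.Agent.HadL
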