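import Mathlib

/-!
# D-families

A D-family is a finite family of integer matrices `c i` (`i : E`) of size `X × X` placed at the
integer positions `p i`, such that

* every `c i` is a signed partial permutation matrix whose set of nonzero rows (and whose set of
  nonzero columns) contains exactly one element of every pair `{x, ι x}`, where `ι` is an involution
  without fixed points of `X`;
* `K(z) = ∑ i, z ^ p i • c i` satisfies `K(z) K(1/z)ᵀ = (|E| / 2) • 1`.
-/

set_option autoImplicit false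

namespace Pool.Agent.HadL

open Matrix

/-- The matrix `K(z) = ∑ i, z ^ p i • c i`. -/
def ev {X E : Type} [Fintype E] (p : E → ℤ) (c : E → Matrix X X ℤ) (z : ℚ) : Matrix X X ℚ :=
  ∑ i, z ^ p i • (c i).map (Int.cast : ℤ → ℚ)

/-- A D-family. -/
structure DF (X E : Type) [Fintype X] [DecidableEq X] [Fintype E] where
  /-- the involution -/
  ι : X → X
  /-- a choice of signs, different at `x` and at `ι x` -/
  ε : X → ℤ
  /-- the positions -/
  p : E → ℤ
  /-- the coefficient matrices -/
  c : E → Matrix X X ℤ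
  ι_ι : ∀ x, ι (ι x) = x
  ε_sq : ∀ x, ε x * ε x = 1
  ε_ι : ∀ x, ε (ι x) = -ε x
  row : ∀ i x, ∑ y, |c i x y| + ∑ y, |c i (ι x) y| = 1
  col : ∀ i y, ∑ x, |c i x y| + ∑ x, |c i x (ι y)| = 1
  orth : ∀ z : ℚ, z ≠ 0 →
    ev p c z * (ev p c z⁻¹)ᵀ = ((Fintype.card E : ℚ) / 2) • (1 : Matrix X X ℚ)

/-- `HasD m S`: there is a D-family of size `2 ^ m` whose set of positions is `S` (every position
used once). -/
def HasD (m : ℕ) (S : Finset ℤ) : Prop :=
  ∃ (X E : Type) (_ : Fintype X) (_ : DecidableEq X) (_ : Fintype E) (D : DF X E),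
    Fintype.card X = 2 ^ m ∧ Function.Injective D.p ∧ ∀ e : ℤ, e ∈ S ↔ ∃ i, D.p i = e

/-- The rules satisfied by the relation `P m n`: there is a D-family of size `2 ^ m` on the
interval `[0, 2 n)`. -/
structure Rules (P : ℕ → ℕ → Prop) : Prop where
  base : P 1 1
  mono : ∀ {m m' a : ℕ}, m ≤ m' → P m a → P m' a
  mul : ∀ {m a b : ℕ}, 0 < a → 0 < b → P m a → P m b → P m (2 * a * b)
  add : ∀ {m m' a b : ℕ}, 0 < a → 0 < b → P m a → P m' b → P (m + m' + 1) (a + 2 * b)
  succ : ∀ {m a : ℕ}, 0 < a → P m a → P (m + 2) (a + 1)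

end Pool.Agent.HadL
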