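import Pool.Agent.HadL.Recur

set_option autoImplicit false

namespace Pool.Agent.HadL

theorem Rules.trivial {P : ℕ → ℕ → Prop} (hP : Rules P) (L : ℕ) :
    ∀ n, 0 < n → n < 2 ^ L → P (2 * L + 1) n := by
  induction L with
  | zero => intro n hn h1; rw [pow_zero] at h1; omega
  | succ L ih =>
    intro n hn hnL
    rcases Nat.eq_zero_or_pos (n / 2) with h0 | h0
    · have h1 : n = 1 := by omega
      rw [h1]
      exact hP.mono (by omega) hP.base
    · have h2 : n / 2 < 2 ^ L := by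
        have : 2 ^ (L + 1) = 2 * 2 ^ L := by ring
        omega
      have h3 := ih (n / 2) h0 h2
      have h4 : P (2 * L + 1) (2 * (n / 2)) := by
        have := hP.mul h0 one_pos h3 (hP.mono (by omega) hP.base)
        rwa [mul_one] at this
      rcases Nat.mod_two_eq_zero_or_one n with h6 | h6
      · have h7 : 2 * (n / 2) = n := by omega
        rw [h7] at h4
        exact hP.mono (by omega) h4
      · have h7 : 2 * (n / 2) + 1 = n := by omega
        rw [← h7]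
        exact hP.mono (by omega) (hP.succ (by omega) h4)

private theorem B8_log (m : ℕ) : Nat.log 2 (m + 1) ≤ Nat.log 2 m + 1 := by
  rcases Nat.eq_zero_or_pos m with h | h
  · subst h; simp
  · calc Nat.log 2 (m + 1) ≤ Nat.log 2 (m * 2) := Nat.log_mono_right (by omega)
      _ = Nat.log 2 m + 1 := Nat.log_mul_base (by norm_num) (by omega)

theorem Rules.final {P : ℕ → ℕ → Prop} (hP : Rules P) :
    ∃ C : ℕ, ∀ n, 0 < n → P (C * (Nat.log 2 (Nat.log 2 n) + 1) *
      (Nat.log 2 (Nat.log 2 (Nat.log 2 n)) + 1) ^ 2) n := by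
  refine ⟨10 ^ 9, fun n hn => ?_⟩
  set L := Nat.log 2 n + 1 with hL
  set L₁ := 100 * (Nat.log 2 L + 1) with hL1
  set L₂ := 100 * (Nat.log 2 L₁ + 1) with hL2
  have s1 : ∀ n, 0 < n → n < 2 ^ L₁ → P (L₂ * ((2 * L₂ + 1) + 1)) n :=
    hP.recur L₁ (2 * L₂ + 1) (by omega) (hP.trivial L₂)
  have hw1 : 1 ≤ L₂ * ((2 * L₂ + 1) + 1) := Nat.mul_pos (by omega) (by omega)
  have s2 := hP.recur L (L₂ * ((2 * L₂ + 1) + 1)) hw1 s1 n hn
    (Nat.lt_pow_succ_log_self (by norm_num) n)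
  refine hP.mono ?_ s2
  set a := Nat.log 2 (Nat.log 2 n) with ha
  set b := Nat.log 2 a with hb
  have e1 : Nat.log 2 L ≤ a + 1 := B8_log _
  have e2 : Nat.log 2 L₁ ≤ b + 9 := by
    calc Nat.log 2 L₁ ≤ Nat.log 2 ((a + 2) * 2 ^ 7) := Nat.log_mono_right (by omega)
      _ = Nat.log 2 (a + 2) + 7 := by
          rw [show (a + 2) * 2 ^ 7 = (a + 2) * 2 * 2 * 2 * 2 * 2 * 2 * 2 by ring]
          repeat rw [Nat.log_mul_base (by norm_num) (by omega)]
      _ ≤ b + 9 := by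
          have h1 : Nat.log 2 (a + 2) ≤ Nat.log 2 (a + 1) + 1 := B8_log (a + 1)
          have h2 : Nat.log 2 (a + 1) ≤ b + 1 := B8_log a
          omega
  have e3 : L₂ ≤ 1000 * (b + 1) := by omega
  have e4 : L₂ * ((2 * L₂ + 1) + 1) + 1 ≤ 2003001 * (b + 1) ^ 2 := by
    have : L₂ * ((2 * L₂ + 1) + 1) ≤ 1000 * (b + 1) * ((2 * (1000 * (b + 1)) + 1) + 1) := by gcongr
    nlinarith [Nat.zero_le b]
  calc 100 * (Nat.log 2 L + 1) * (L₂ * ((2 * L₂ + 1) + 1) + 1)
      ≤ 100 * (2 * (a + 1)) * (2003001 * (b + 1) ^ 2) := by gcongr; omega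
    _ = 400600200 * ((a + 1) * (b + 1) ^ 2) := by ring
    _ ≤ 10 ^ 9 * ((a + 1) * (b + 1) ^ 2) := by gcongr; norm_num
    _ = 10 ^ 9 * (a + 1) * (b + 1) ^ 2 := by ring

end Pool.Agent.HadL
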