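import Pool.Agent.HadL.Defs

set_option autoImplicit false

namespace Pool.Agent.HadL

open Matrix

private theorem A6b_unit {X : Type} [Fintype X] [DecidableEq X] (u : X → ℤ)
    (h : ∑ y, |u y| = 1) :
    ∃ w : X, ∃ s : ℤ, (s = 1 ∨ s = -1) ∧ ∀ y, u y = if y = w then s else 0 := by
  have hw : ∃ w, u w ≠ 0 := by
    by_contra hcon
    push Not at hcon
    simp [hcon] at h
  obtain ⟨w, hw⟩ := hw
  have h1 : 1 ≤ |u w| := Int.one_le_abs hw
  rw [← Finset.add_sum_erase _ _ (Finset.mem_univ w)] at h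
  have h2 : 0 ≤ ∑ y ∈ Finset.univ.erase w, |u y| := Finset.sum_nonneg fun _ _ => abs_nonneg _
  have h3 : ∑ y ∈ Finset.univ.erase w, |u y| = 0 := by omega
  have h4 : |u w| = 1 := by omega
  rw [Finset.sum_eq_zero_iff_of_nonneg (fun _ _ => abs_nonneg _)] at h3
  refine ⟨w, u w, ?_, ?_⟩
  · rcases abs_cases (u w) with h5 | h5 <;> omega
  · intro y
    by_cases hy : y = w
    · simp [hy]
    · rw [if_neg hy]
      exact abs_eq_zero.1 (h3 y (by simp [hy]))

private theorem A6b_zero {X : Type} [Fintype X] (u : X → ℤ) (h : ∑ y, |u y| = 0) (y : X) :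
    u y = 0 := by
  rw [Finset.sum_eq_zero_iff_of_nonneg (fun _ _ => abs_nonneg _)] at h
  exact abs_eq_zero.1 (h y (Finset.mem_univ y))

theorem DF.flat {X E : Type} [Fintype X] [DecidableEq X] [Fintype E] (D : DF X E) (i : E) (x : X) :
    ∃ w : X, ∃ s : ℤ, (s = 1 ∨ s = -1) ∧
      ∀ y, D.ε x * D.c i x y + D.c i (D.ι x) y = if y = w then s else 0 := by
  have h := D.row i x
  have h1 : 0 ≤ ∑ y, |D.c i x y| := Finset.sum_nonneg fun _ _ => abs_nonneg _
  have h2 : 0 ≤ ∑ y, |D.c i (D.ι x) y| := Finset.sum_nonneg fun _ _ => abs_nonneg _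
  have hcase : (∑ y, |D.c i x y| = 1 ∧ ∑ y, |D.c i (D.ι x) y| = 0) ∨
      (∑ y, |D.c i x y| = 0 ∧ ∑ y, |D.c i (D.ι x) y| = 1) := by omega
  rcases hcase with ⟨h3, h4⟩ | ⟨h3, h4⟩
  · obtain ⟨w, s, hs, hw⟩ := A6b_unit _ h3
    have h5 := A6b_zero _ h4
    have hε : D.ε x = 1 ∨ D.ε x = -1 := by
      have := D.ε_sq x
      exact mul_self_eq_one_iff.1 this
    refine ⟨w, D.ε x * s, ?_, ?_⟩
    · rcases hε with h6 | h6 <;> rcases hs with h7 | h7 <;> simp [h6, h7]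
    · intro y
      rw [h5, hw]
      by_cases hy : y = w
      · rw [if_pos hy, if_pos hy, add_zero]
      · rw [if_neg hy, if_neg hy, mul_zero, add_zero]
  · obtain ⟨w, s, hs, hw⟩ := A6b_unit _ h4
    have h5 := A6b_zero _ h3
    refine ⟨w, s, hs, ?_⟩
    intro y
    rw [h5, hw, mul_zero, zero_add]

end Pool.Agent.HadL
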