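import Pool.Agent.HadL.Defs

set_option autoImplicit false

namespace Pool.Agent.HadL

theorem mod_count (X r v : ℕ) (hr : 0 < r) :
    (((Finset.Ico X (2 * X)).filter (fun n => n ≡ v [MOD r])).card : ℚ) ≤ X / r + 1 ∧
    (X : ℚ) / r - 1 ≤ (((Finset.Ico X (2 * X)).filter (fun n => n ≡ v [MOD r])).card : ℚ) := by
  have h := Nat.Ico_filter_modEq_card X (2 * X) hr v
  have hrq : (0 : ℚ) < r := by exact_mod_cast hr
  have e : ((2 * X : ℕ) - v : ℚ) / r = (X - v : ℚ) / r + X / r := by
    push_cast; field_simp; ring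
  have hc : ((((Finset.Ico X (2 * X)).filter (fun n => n ≡ v [MOD r])).card : ℤ) : ℚ) =
      ((max (⌈((2 * X : ℕ) - v : ℚ) / r⌉ - ⌈(X - v : ℚ) / r⌉) 0 : ℤ) : ℚ) := by
    rw [h]
  rw [Int.cast_natCast] at hc
  rw [hc, e]
  push_cast
  have h1 := Int.ceil_lt_add_one ((X - v : ℚ) / r + X / r)
  have h2 := Int.le_ceil ((X - v : ℚ) / r + X / r)
  have h3 := Int.ceil_lt_add_one ((X - v : ℚ) / r)
  have h4 := Int.le_ceil ((X - v : ℚ) / r)
  have h5 : (0 : ℚ) ≤ X / r := by positivity
  constructor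
  · apply max_le <;> linarith
  · apply le_max_of_le_left; linarith

theorem count_one (X c R : ℕ) (hc : 0 < c) (hR : R ≤ 2 * c) :
    (R : ℚ) * X / (2 * c) - R ≤
      (((Finset.Ico X (2 * X)).filter (fun n => n % (2 * c) < R)).card : ℚ) := by
  classical
  have h1 : ((Finset.Ico X (2 * X)).filter (fun n => n % (2 * c) < R)).card =
      ∑ v ∈ Finset.range R, ((Finset.Ico X (2 * X)).filter (fun n => n ≡ v [MOD (2 * c)])).card := by
    rw [Finset.card_eq_sum_card_fiberwise (f := fun n => n % (2 * c)) (t := Finset.range R)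
      (fun n hn => by
        have := (Finset.mem_filter.1 (Finset.mem_coe.1 hn)).2
        exact Finset.mem_coe.2 (Finset.mem_range.2 this))]
    apply Finset.sum_congr rfl
    intro v hv
    have hv' : v < 2 * c := lt_of_lt_of_le (Finset.mem_range.1 hv) hR
    congr 1
    ext n
    simp only [Finset.mem_filter]
    constructor
    · rintro ⟨⟨h1, _⟩, h3⟩
      refine ⟨h1, ?_⟩
      rw [Nat.ModEq, h3, Nat.mod_eq_of_lt hv']
    · rintro ⟨h1, h2⟩
      rw [Nat.ModEq, Nat.mod_eq_of_lt hv'] at h2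
      exact ⟨⟨h1, by rw [h2]; exact Finset.mem_range.1 hv⟩, h2⟩
  rw [h1]
  push_cast
  have h2 : ∑ v ∈ Finset.range R, ((X : ℚ) / ((2 * c : ℕ) : ℚ) - 1) ≤
      ∑ v ∈ Finset.range R,
        (((Finset.Ico X (2 * X)).filter (fun n => n ≡ v [MOD (2 * c)])).card : ℚ) :=
    Finset.sum_le_sum fun v _ => (mod_count X (2 * c) v (by omega)).2
  rw [Finset.sum_const, Finset.card_range, nsmul_eq_mul] at h2
  push_cast at h2
  calc (R : ℚ) * X / (2 * c) - R = R * (X / (2 * c) - 1) := by ring
    _ ≤ _ := h2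

theorem count_two (X c c' R : ℕ) (hc : 0 < c) (hc' : 0 < c') :
    (((Finset.Ico X (2 * X)).filter (fun n => n % (2 * c) < R ∧ n % (2 * c') < R)).card : ℚ) ≤
      (R : ℚ) ^ 2 * X / (4 * c * c') + R * X * (Nat.gcd c c') / (2 * c * c') + (R : ℚ) ^ 2 + R := by
  classical
  set g := Nat.gcd c c' with hg
  have hgpos : 0 < g := Nat.gcd_pos_of_pos_left _ hc
  set l := Nat.lcm (2 * c) (2 * c') with hl
  have hlpos : 0 < l := Nat.lcm_pos (by omega) (by omega)
  have hlg : l * g = 2 * c * c' := by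
    have h1 : Nat.gcd (2 * c) (2 * c') * l = (2 * c) * (2 * c') := Nat.gcd_mul_lcm _ _
    rw [Nat.gcd_mul_left, ← hg] at h1
    nlinarith
  have hlq : (l : ℚ) * g = 2 * c * c' := by exact_mod_cast hlg
  have hcq : (0 : ℚ) < c := by exact_mod_cast hc
  have hcq' : (0 : ℚ) < c' := by exact_mod_cast hc'
  have hgq : (1 : ℚ) ≤ g := by exact_mod_cast hgpos
  have hlq0 : (0 : ℚ) < l := by exact_mod_cast hlpos
  -- fibres
  let F : ℕ × ℕ → Finset ℕ := fun q => (Finset.Ico X (2 * X)).filter
    (fun n => n % (2 * c) = q.1 ∧ n % (2 * c') = q.2)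
  let Q : Finset (ℕ × ℕ) := ((Finset.range R) ×ˢ (Finset.range R)).filter
    (fun q => q.2 ≡ q.1 [MOD (2 * g)])
  have h1 : ((Finset.Ico X (2 * X)).filter (fun n => n % (2 * c) < R ∧ n % (2 * c') < R)).card =
      ∑ q ∈ Q, (F q).card := by
    rw [Finset.card_eq_sum_card_fiberwise (f := fun n => (n % (2 * c), n % (2 * c'))) (t := Q)]
    · apply Finset.sum_congr rfl
      intro q hq
      have hq' := Finset.mem_filter.1 hq
      have hq1 := Finset.mem_range.1 (Finset.mem_product.1 hq'.1).1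
      have hq2 := Finset.mem_range.1 (Finset.mem_product.1 hq'.1).2
      congr 1
      ext n
      simp only [F, Finset.mem_filter, Prod.ext_iff]
      constructor
      · rintro ⟨⟨h1, _⟩, h3⟩
        exact ⟨h1, h3⟩
      · rintro ⟨h1, h2, h3⟩
        exact ⟨⟨h1, by rw [h2]; exact hq1, by rw [h3]; exact hq2⟩, h2, h3⟩
    · intro n hn
      have hn' := Finset.mem_filter.1 (Finset.mem_coe.1 hn)
      apply Finset.mem_coe.2
      apply Finset.mem_filter.2
      refine ⟨Finset.mem_product.2 ⟨Finset.mem_range.2 hn'.2.1, Finset.mem_range.2 hn'.2.2⟩, ?_⟩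
      have e1 : n % (2 * c) ≡ n [MOD (2 * g)] :=
        (Nat.mod_modEq n (2 * c)).of_dvd (Nat.mul_dvd_mul_left 2 (Nat.gcd_dvd_left c c'))
      have e2 : n % (2 * c') ≡ n [MOD (2 * g)] :=
        (Nat.mod_modEq n (2 * c')).of_dvd (Nat.mul_dvd_mul_left 2 (Nat.gcd_dvd_right c c'))
      exact e2.trans e1.symm
  have h2 : ∀ q, ((F q).card : ℚ) ≤ X / l + 1 := by
    intro q
    rcases (F q).eq_empty_or_nonempty with h | ⟨n₀, hn₀⟩
    · rw [h]; simp; positivity
    · have hn0 := (Finset.mem_filter.1 hn₀).2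
      refine le_trans ?_ (mod_count X l n₀ hlpos).1
      have : F q ⊆ (Finset.Ico X (2 * X)).filter (fun n => n ≡ n₀ [MOD l]) := by
        intro n hn
        have hn' := Finset.mem_filter.1 hn
        refine Finset.mem_filter.2 ⟨hn'.1, ?_⟩
        have a1 : n ≡ n₀ [MOD (2 * c)] := by rw [Nat.ModEq, hn'.2.1, hn0.1]
        have a2 : n ≡ n₀ [MOD (2 * c')] := by rw [Nat.ModEq, hn'.2.2, hn0.2]
        have b1 := (Nat.modEq_iff_dvd).1 a1
        have b2 := (Nat.modEq_iff_dvd).1 a2
        apply (Nat.modEq_iff_dvd).2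
        have b3 : ((Nat.lcm (2 * c) (2 * c') : ℕ) : ℤ) ∣ (n₀ : ℤ) - n := by
          rw [← Int.lcm_natCast_natCast]
          exact Int.coe_lcm_dvd b1 b2
        exact b3
      exact_mod_cast Finset.card_le_card this
  have h3 : (Q.card : ℚ) ≤ R * (R / (2 * g) + 1) := by
    have h4 : Q.card ≤ ∑ v ∈ Finset.range R, (R / (2 * g) + 1) := by
      have h5 : Q.card = ∑ v ∈ Finset.range R,
          ((Finset.range R).filter (fun w => w ≡ v [MOD (2 * g)])).card := by
        simp only [Q]
        rw [Finset.card_filter, Finset.sum_product]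
        apply Finset.sum_congr rfl
        intro v _
        rw [Finset.card_filter]
      rw [h5]
      apply Finset.sum_le_sum
      intro v _
      have h6 := Nat.count_modEq_card R (r := 2 * g) (by omega) v
      rw [Nat.count_eq_card_filter_range] at h6
      rw [h6]
      split_ifs <;> omega
    rw [Finset.sum_const, Finset.card_range, smul_eq_mul] at h4
    have h7 : (Q.card : ℚ) ≤ R * (((R / (2 * g) : ℕ) : ℚ) + 1) := by exact_mod_cast h4
    refine h7.trans ?_
    have h8 : ((R / (2 * g) : ℕ) : ℚ) ≤ R / (2 * g) := by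
      have := @Nat.cast_div_le ℚ _ _ _ R (2 * g)
      push_cast at this
      exact this
    have : (0 : ℚ) ≤ R := by positivity
    nlinarith
  rw [h1]
  push_cast
  calc ∑ q ∈ Q, ((F q).card : ℚ) ≤ ∑ q ∈ Q, ((X : ℚ) / l + 1) :=
        Finset.sum_le_sum fun q _ => h2 q
    _ = Q.card * (X / l + 1) := by rw [Finset.sum_const, nsmul_eq_mul]
    _ ≤ R * (R / (2 * g) + 1) * (X / l + 1) := by
        apply mul_le_mul_of_nonneg_right h3
        positivity
    _ ≤ _ := by
        have e1 : (X : ℚ) / l = X * g / (2 * c * c') := by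
          rw [← hlq]; field_simp
        rw [e1]
        have e2 : (R : ℚ) * (R / (2 * g) + 1) * (X * g / (2 * c * c') + 1) =
            R ^ 2 * X / (4 * c * c') + R * X * g / (2 * c * c') + R ^ 2 / (2 * g) + R := by
          field_simp
          ring
        rw [e2]
        have e3 : (R : ℚ) ^ 2 / (2 * g) ≤ R ^ 2 := by
          rw [div_le_iff₀ (by linarith)]
          have : (0 : ℚ) ≤ R ^ 2 := by positivity
          nlinarith
        linarith

theorem gcd_sum (k : ℕ) :
    ∑ c ∈ Finset.Ico (2 ^ k) (2 ^ (k + 1)), ∑ c' ∈ Finset.Ico (2 ^ k) (2 ^ (k + 1)), Nat.gcd c c'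
      ≤ 4 * 4 ^ k * (k + 2) := by
  classical
  obtain ⟨C, hC⟩ : ∃ C : ℕ, C = 2 ^ k := ⟨_, rfl⟩
  have hC2 : 2 ^ (k + 1) = 2 * C := by rw [hC, pow_succ]; ring
  have h4 : 4 ^ k = C * C := by
    rw [hC, ← mul_pow]; norm_num
  have hCpos : 0 < C := by rw [hC]; positivity
  rw [hC2, ← hC, h4]
  let I := Finset.Ico C (2 * C)
  let N : ℕ → ℕ := fun g => (I.filter (fun c => g ∣ c)).card
  have hN : ∀ g, 0 < g → (N g : ℝ) ≤ C / g + 1 := by
    intro g hg
    have h := (mod_count C g 0 hg).1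
    have e : (I.filter (fun c => g ∣ c)) = ((Finset.Ico C (2 * C)).filter (fun n => n ≡ 0 [MOD g])) := by
      apply Finset.filter_congr
      intro c _
      exact (Nat.modEq_zero_iff_dvd).symm
    rw [← e] at h
    have h' : (((N g : ℚ)) : ℝ) ≤ ((C / g + 1 : ℚ) : ℝ) := by exact_mod_cast h
    push_cast at h'
    exact h'
  -- bound of the double sum
  have h1 : ∑ c ∈ I, ∑ c' ∈ I, Nat.gcd c c' ≤ ∑ g ∈ Finset.Icc 1 (2 * C), g * (N g * N g) := by
    have h2 : ∀ c ∈ I, ∀ c' ∈ I, Nat.gcd c c' ≤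
        ∑ g ∈ Finset.Icc 1 (2 * C), g * ((if g ∣ c then 1 else 0) * (if g ∣ c' then 1 else 0)) := by
      intro c hc c' hc'
      have hc1 := Finset.mem_Ico.1 hc
      have hg : Nat.gcd c c' ∈ Finset.Icc 1 (2 * C) := by
        rw [Finset.mem_Icc]
        refine ⟨Nat.gcd_pos_of_pos_left _ (by omega), ?_⟩
        exact (Nat.gcd_le_left _ (by omega)).trans hc1.2.le
      refine le_trans ?_ (Finset.single_le_sum (fun g _ => Nat.zero_le _) hg)
      simp [Nat.gcd_dvd_left, Nat.gcd_dvd_right]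
    calc ∑ c ∈ I, ∑ c' ∈ I, Nat.gcd c c' ≤ ∑ c ∈ I, ∑ c' ∈ I,
        ∑ g ∈ Finset.Icc 1 (2 * C), g * ((if g ∣ c then 1 else 0) * (if g ∣ c' then 1 else 0)) :=
          Finset.sum_le_sum fun c hc => Finset.sum_le_sum fun c' hc' => h2 c hc c' hc'
      _ = ∑ g ∈ Finset.Icc 1 (2 * C), g * (N g * N g) := by
          have e : ∀ c ∈ I, ∑ c' ∈ I, ∑ g ∈ Finset.Icc 1 (2 * C),
              g * ((if g ∣ c then 1 else 0) * (if g ∣ c' then 1 else 0)) =
              ∑ g ∈ Finset.Icc 1 (2 * C), ∑ c' ∈ I,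
              g * ((if g ∣ c then 1 else 0) * (if g ∣ c' then 1 else 0)) :=
            fun c _ => Finset.sum_comm
          rw [Finset.sum_congr rfl e, Finset.sum_comm]
          apply Finset.sum_congr rfl
          intro g _
          have e2 : N g = ∑ c ∈ I, if g ∣ c then 1 else 0 := Finset.card_filter _ _
          rw [e2, Finset.sum_mul_sum, Finset.mul_sum]
          apply Finset.sum_congr rfl
          intro c _
          rw [Finset.mul_sum]
  have h2 : ((∑ g ∈ Finset.Icc 1 (2 * C), g * (N g * N g) : ℕ) : ℝ) ≤ 4 * (C * C) * (k + 2) := by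
    push_cast
    have hCr : (1 : ℝ) ≤ C := by exact_mod_cast hCpos
    have hs : Finset.Icc 1 (2 * C) = Finset.Icc 1 C ∪ Finset.Ioc C (2 * C) := by
      ext g; simp only [Finset.mem_Icc, Finset.mem_union, Finset.mem_Ioc]; omega
    have hd : Disjoint (Finset.Icc 1 C) (Finset.Ioc C (2 * C)) := by
      rw [Finset.disjoint_left]; intro g; simp only [Finset.mem_Icc, Finset.mem_Ioc]; omega
    rw [hs, Finset.sum_union hd]
    have hA : ∑ g ∈ Finset.Icc 1 C, (g : ℝ) * (N g * N g) ≤ 4 * (C * C) * (k + 1) := by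
      have h3 : ∀ g ∈ Finset.Icc 1 C, (g : ℝ) * (N g * N g) ≤ 4 * (C * C) * ((g : ℝ))⁻¹ := by
        intro g hg
        have hg' := Finset.mem_Icc.1 hg
        have hg0 : (0 : ℝ) < g := by exact_mod_cast hg'.1
        have hgC : (g : ℝ) ≤ C := by exact_mod_cast hg'.2
        have h5 := hN g hg'.1
        have h6 : (N g : ℝ) ≤ 2 * (C / g) := by
          have : (1 : ℝ) ≤ C / g := by rw [le_div_iff₀ hg0]; linarith
          linarith
        have h7 : (N g : ℝ) * N g ≤ (2 * (C / g)) * (2 * (C / g)) :=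
          mul_le_mul h6 h6 (by positivity) (by positivity)
        calc (g : ℝ) * (N g * N g) ≤ g * ((2 * (C / g)) * (2 * (C / g))) :=
              mul_le_mul_of_nonneg_left h7 hg0.le
          _ = 4 * (C * C) * ((g : ℝ))⁻¹ := by field_simp; ring
      refine (Finset.sum_le_sum h3).trans ?_
      rw [← Finset.mul_sum]
      apply mul_le_mul_of_nonneg_left _ (by positivity)
      have h8 := harmonic_le_one_add_log C
      rw [harmonic_eq_sum_Icc] at h8
      push_cast at h8
      refine h8.trans ?_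
      rw [hC]
      push_cast
      rw [Real.log_pow]
      have := Real.log_two_lt_d9
      have hk : (0 : ℝ) ≤ k := by positivity
      nlinarith
    have hB : ∑ g ∈ Finset.Ioc C (2 * C), (g : ℝ) * (N g * N g) ≤ 2 * (C * C) := by
      have h3 : ∀ g ∈ Finset.Ioc C (2 * C), (g : ℝ) * (N g * N g) ≤ 2 * C := by
        intro g hg
        have hg' := Finset.mem_Ioc.1 hg
        have hg0 : (0 : ℝ) < g := by exact_mod_cast (by omega : 0 < g)
        have hgC : (C : ℝ) < g := by exact_mod_cast hg'.1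
        have hgC2 : (g : ℝ) ≤ 2 * C := by exact_mod_cast hg'.2
        have h5 := hN g (by omega)
        have h6 : (N g : ℝ) < 2 := by
          have : (C : ℝ) / g < 1 := by rw [div_lt_one hg0]; exact hgC
          linarith
        have h7 : N g ≤ 1 := by
          have : N g < 2 := by exact_mod_cast h6
          omega
        have h8 : (N g : ℝ) ≤ 1 := by exact_mod_cast h7
        have h9 : (N g : ℝ) * N g ≤ 1 := by
          have : (0 : ℝ) ≤ N g := by positivity
          nlinarith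
        nlinarith
      refine (Finset.sum_le_sum h3).trans ?_
      rw [Finset.sum_const, Nat.card_Ioc, nsmul_eq_mul]
      have : ((2 * C - C : ℕ) : ℝ) = C := by
        rw [show 2 * C - C = C by omega]
      rw [this]; nlinarith
    nlinarith
  have h3 : ∑ g ∈ Finset.Icc 1 (2 * C), g * (N g * N g) ≤ 4 * (C * C) * (k + 2) := by
    exact_mod_cast h2
  exact h1.trans h3

end Pool.Agent.HadL
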