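import Pool.Agent.HadL.Corr
import Pool.Agent.HadL.Flat
import Pool.Agent.HadAP.Basic

set_option autoImplicit false

namespace Pool.Agent.HadL

open Matrix Pool.Agent.HadAP

/-- cyclic correlations -/
private theorem A6c_cyc {X E : Type} [Fintype X] [DecidableEq X] [Fintype E] (D : DF X E)
    (N : ℕ) [NeZero N] (i : ZMod N → E) (hi : ∀ u, D.p (i u) = (u.val : ℤ))
    (hbij : Function.Bijective i) (t : ZMod N) :
    (2 : ℤ) • ∑ u, D.c (i u) * (D.c (i (u + t)))ᵀ =
      if t = 0 then (N : ℤ) • (1 : Matrix X X ℤ) else 0 := by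
  classical
  have hcast : ∀ u, ((D.p (i u) : ℤ) : ZMod N) = u := by
    intro u
    rw [hi]
    simp
  have hcard : Fintype.card E = N := by
    rw [← Fintype.card_of_bijective hbij, ZMod.card]
  have h1 : ∑ u, D.c (i u) * (D.c (i (u + t)))ᵀ =
      ∑ q : E × E, (if ((D.p q.1 - D.p q.2 : ℤ) : ZMod N) = -t then
        D.c q.1 * (D.c q.2)ᵀ else 0) := by
    rw [Fintype.sum_prod_type, ← hbij.sum_comp (fun e₁ => ∑ e₂, (if ((D.p e₁ - D.p e₂ : ℤ) :
      ZMod N) = -t then D.c e₁ * (D.c e₂)ᵀ else 0))]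
    refine Finset.sum_congr rfl fun u _ => ?_
    rw [← hbij.sum_comp (fun e₂ => (if ((D.p (i u) - D.p e₂ : ℤ) :
      ZMod N) = -t then D.c (i u) * (D.c e₂)ᵀ else 0))]
    have h2 : ∀ v, (if ((D.p (i u) - D.p (i v) : ℤ) : ZMod N) = -t then
        D.c (i u) * (D.c (i v))ᵀ else 0) =
        if v = u + t then D.c (i u) * (D.c (i v))ᵀ else 0 := by
      intro v
      have h3 : ((D.p (i u) - D.p (i v) : ℤ) : ZMod N) = -t ↔ v = u + t := by
        push_cast
        rw [hcast, hcast]
        constructor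
        · intro h; linear_combination -h
        · intro h; rw [h]; ring
      simp only [h3]
    rw [Finset.sum_congr rfl fun v _ => h2 v]
    simp
  let T : Finset ℤ := insert 0 (Finset.univ.image (fun q : E × E => D.p q.1 - D.p q.2))
  have h4 : ∑ q : E × E, (if ((D.p q.1 - D.p q.2 : ℤ) : ZMod N) = -t then
        D.c q.1 * (D.c q.2)ᵀ else 0) =
      ∑ s ∈ T, if ((s : ℤ) : ZMod N) = -t then ∑ q : E × E,
        (if D.p q.1 - D.p q.2 = s then D.c q.1 * (D.c q.2)ᵀ else 0) else 0 := by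
    have h5 : ∀ s : ℤ, (if ((s : ℤ) : ZMod N) = -t then ∑ q : E × E,
        (if D.p q.1 - D.p q.2 = s then D.c q.1 * (D.c q.2)ᵀ else 0) else 0) =
        ∑ q : E × E, (if D.p q.1 - D.p q.2 = s then
          (if ((D.p q.1 - D.p q.2 : ℤ) : ZMod N) = -t then
            D.c q.1 * (D.c q.2)ᵀ else 0) else 0) := by
      intro s
      by_cases hs : ((s : ℤ) : ZMod N) = -t
      · rw [if_pos hs]
        refine Finset.sum_congr rfl fun q _ => ?_
        by_cases h6 : D.p q.1 - D.p q.2 = s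
        · rw [if_pos h6, if_pos h6, h6, if_pos hs]
        · rw [if_neg h6, if_neg h6]
      · rw [if_neg hs]
        symm
        refine Finset.sum_eq_zero fun q _ => ?_
        by_cases h6 : D.p q.1 - D.p q.2 = s
        · rw [if_pos h6, h6, if_neg hs]
        · rw [if_neg h6]
    rw [Finset.sum_congr rfl fun s _ => h5 s, Finset.sum_comm]
    refine Finset.sum_congr rfl fun q _ => ?_
    rw [Finset.sum_ite_eq, if_pos (show D.p q.1 - D.p q.2 ∈ T from
      Finset.mem_insert_of_mem (Finset.mem_image.2 ⟨q, Finset.mem_univ q, rfl⟩))]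
  rw [h1, h4, Finset.smul_sum, Finset.sum_eq_single (0 : ℤ)]
  · have h6 : ((0 : ℤ) : ZMod N) = -t ↔ t = 0 := by
      rw [Int.cast_zero]
      constructor
      · intro h; rw [eq_comm, neg_eq_zero] at h; exact h
      · intro h; rw [h, neg_zero]
    by_cases ht : t = 0
    · rw [if_pos (h6.2 ht), if_pos ht, D.corr, if_pos rfl, hcard]
    · rw [if_neg (fun h => ht (h6.1 h)), if_neg ht, smul_zero]
  · intro s _ hs
    by_cases h6 : ((s : ℤ) : ZMod N) = -t
    · rw [if_pos h6, D.corr, if_neg hs]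
    · rw [if_neg h6, smul_zero]
  · intro h; exact absurd (show (0 : ℤ) ∈ T from Finset.mem_insert_self _ _) h

theorem HasD.isHad {m n : ℕ} (hn : 0 < n) (h : HasD m (Finset.Ico 0 (2 * (n : ℤ)))) :
    IsHad (2 ^ m * (2 * n)) := by
  classical
  obtain ⟨X, E, iX, dX, iE, D, hX, hp, hS⟩ := h
  have : NeZero (2 * n) := ⟨by omega⟩
  obtain ⟨H, hH1, hH2⟩ := isHad_two_pow m
  let eX : X ≃ Fin (2 ^ m) := Fintype.equivFinOfCardEq hX
  -- the Hadamard matrix on `X`
  obtain ⟨W, hW1, hW2⟩ : ∃ W : Matrix X X ℤ, (∀ x y, W x y = 1 ∨ W x y = -1) ∧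
      W * Wᵀ = ((2 ^ m : ℕ) : ℤ) • (1 : Matrix X X ℤ) := by
    refine ⟨H.submatrix eX eX, fun x y => hH1 _ _, ?_⟩
    rw [Matrix.transpose_submatrix, Matrix.submatrix_mul_equiv, hH2]
    ext x y
    simp only [Matrix.submatrix_apply, Matrix.smul_apply, Matrix.one_apply,
      eX.injective.eq_iff]
  -- the enumeration of the positions
  have hex : ∀ u : ZMod (2 * n), ∃ i, D.p i = (u.val : ℤ) := by
    intro u
    refine (hS _).1 ?_
    rw [Finset.mem_Ico]
    have := ZMod.val_lt u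
    constructor
    · exact Int.natCast_nonneg _
    · exact_mod_cast this
  choose i hi using hex
  have hbij : Function.Bijective i := by
    constructor
    · intro u v huv
      have h1 : ((u.val : ℕ) : ℤ) = v.val := by rw [← hi, ← hi, huv]
      exact ZMod.val_injective _ (by exact_mod_cast h1)
    · intro e
      have h1 := (hS (D.p e)).2 ⟨e, rfl⟩
      rw [Finset.mem_Ico] at h1
      refine ⟨((D.p e : ℤ) : ZMod (2 * n)), hp ?_⟩
      rw [hi, ZMod.val_intCast, Int.emod_eq_of_lt h1.1 (by push_cast; exact h1.2)]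
  have hcyc := A6c_cyc D (2 * n) i hi hbij
  -- the blocks
  let RC : E → Matrix X X ℤ := fun e x y => D.ε x * D.c e x y + D.c e (D.ι x) y
  have hB1 : ∀ e x y, (RC e * W) x y = 1 ∨ (RC e * W) x y = -1 := by
    intro e x y
    obtain ⟨w, s, hs, hw⟩ := D.flat e x
    have h1 : (RC e * W) x y = s * W w y := by
      rw [Matrix.mul_apply]
      have h2 : ∀ z, RC e x z * W z y = if z = w then s * W w y else 0 := by
        intro z
        have h3 : RC e x z = if z = w then s else 0 := hw z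
        rw [h3]
        by_cases h4 : z = w
        · rw [if_pos h4, if_pos h4, h4]
        · rw [if_neg h4, if_neg h4, zero_mul]
      rw [Finset.sum_congr rfl fun z _ => h2 z]
      simp
    rw [h1]
    rcases hs with hs | hs <;> rcases hW1 w y with h2 | h2 <;> simp [hs, h2]
  have hRC : ∀ e f x x', (RC e * (RC f)ᵀ) x x' =
      D.ε x * D.ε x' * (D.c e * (D.c f)ᵀ) x x' + D.ε x * (D.c e * (D.c f)ᵀ) x (D.ι x') +
      D.ε x' * (D.c e * (D.c f)ᵀ) (D.ι x) x' + (D.c e * (D.c f)ᵀ) (D.ι x) (D.ι x') := by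
    intro e f x x'
    simp only [Matrix.mul_apply, Matrix.transpose_apply, RC, Finset.mul_sum,
      ← Finset.sum_add_distrib]
    refine Finset.sum_congr rfl fun y _ => ?_
    ring
  have hkey : ∀ (t : ZMod (2 * n)) (x x' : X),
      ∑ u, (RC (i u) * (RC (i (u + t)))ᵀ) x x' =
        if t = 0 ∧ x = x' then (2 * n : ℤ) else 0 := by
    intro t x x'
    have h1 : ∀ y y', 2 * ∑ u, (D.c (i u) * (D.c (i (u + t)))ᵀ) y y' =
        if t = 0 ∧ y = y' then (2 * n : ℤ) else 0 := by
      intro y y'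
      have h2 := congrFun (congrFun (hcyc t) y) y'
      rw [Matrix.smul_apply, Matrix.sum_apply, smul_eq_mul] at h2
      rw [h2]
      by_cases ht : t = 0
      · rw [if_pos ht, Matrix.smul_apply, smul_eq_mul]
        by_cases hy : y = y'
        · subst hy
          rw [if_pos ⟨ht, rfl⟩, Matrix.one_apply_eq]; push_cast; ring
        · rw [if_neg (fun h => hy h.2), Matrix.one_apply_ne hy, mul_zero]
      · rw [if_neg ht, if_neg (fun h => ht h.1)]; rfl
    have h2 : 2 * ∑ u, (RC (i u) * (RC (i (u + t)))ᵀ) x x' =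
        D.ε x * D.ε x' * (2 * ∑ u, (D.c (i u) * (D.c (i (u + t)))ᵀ) x x') +
        D.ε x * (2 * ∑ u, (D.c (i u) * (D.c (i (u + t)))ᵀ) x (D.ι x')) +
        D.ε x' * (2 * ∑ u, (D.c (i u) * (D.c (i (u + t)))ᵀ) (D.ι x) x') +
        2 * ∑ u, (D.c (i u) * (D.c (i (u + t)))ᵀ) (D.ι x) (D.ι x') := by
      simp only [Finset.mul_sum, ← Finset.sum_add_distrib]
      refine Finset.sum_congr rfl fun u _ => ?_
      rw [hRC]; ring
    rw [h1, h1, h1, h1] at h2
    have hinj : D.ι x = D.ι x' ↔ x = x' :=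
      ⟨fun h => by rw [← D.ι_ι x, h, D.ι_ι], fun h => by rw [h]⟩
    have hsw : x = D.ι x' ↔ D.ι x = x' :=
      ⟨fun h => by rw [h, D.ι_ι], fun h => by rw [← h, D.ι_ι]⟩
    simp only [hinj, hsw] at h2
    by_cases ht : t = 0
    · by_cases hx : x = x'
      · subst hx
        have hne : D.ι x ≠ x := by
          intro h3
          have h4 := D.ε_ι x
          rw [h3] at h4
          have h5 := D.ε_sq x
          have h6 : D.ε x = 0 := by omega
          rw [h6] at h5
          simp at h5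
        rw [if_pos ⟨ht, rfl⟩, if_neg (fun h => hne h.2), D.ε_sq] at h2
        rw [if_pos ⟨ht, rfl⟩]
        linarith
      · rw [if_neg (fun h => hx h.2)] at h2 ⊢
        by_cases hx2 : D.ι x = x'
        · rw [if_pos ⟨ht, hx2⟩] at h2
          have h4 : D.ε x' = - D.ε x := by rw [← hx2, D.ε_ι]
          rw [h4] at h2
          linarith
        · rw [if_neg (fun h => hx2 h.2)] at h2
          linarith
    · simp only [ht, false_and, if_false] at h2 ⊢
      linarith
  refine IsHad.of_type (ι := X × ZMod (2 * n)) (by rw [Fintype.card_prod, hX, ZMod.card])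
    (fun a b => (RC (i (b.2 - a.2)) * W) a.1 b.1) (fun a b => hB1 _ _ _) ?_
  ext ⟨x, a⟩ ⟨x', a'⟩
  rw [Matrix.mul_apply, Fintype.sum_prod_type_right]
  have h3 : ∀ b : ZMod (2 * n), ∑ y, (fun a b : X × ZMod (2 * n) =>
      (RC (i (b.2 - a.2)) * W) a.1 b.1) (x, a) (y, b) *
      (Matrix.transpose (fun a b : X × ZMod (2 * n) =>
        (RC (i (b.2 - a.2)) * W) a.1 b.1)) (y, b) (x', a') =
      ((2 ^ m : ℕ) : ℤ) * (RC (i (b - a)) * (RC (i (b - a')))ᵀ) x x' := by
    intro b
    have h4 : (RC (i (b - a)) * W) * (RC (i (b - a')) * W)ᵀ =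
        ((2 ^ m : ℕ) : ℤ) • (RC (i (b - a)) * (RC (i (b - a')))ᵀ) := by
      rw [Matrix.transpose_mul, Matrix.mul_assoc, ← Matrix.mul_assoc W, hW2, Matrix.smul_mul,
        Matrix.one_mul, Matrix.mul_smul]
    have h5 := congrFun (congrFun h4 x) x'
    rw [Matrix.smul_apply, smul_eq_mul] at h5
    rw [← h5, Matrix.mul_apply]
    rfl
  rw [Finset.sum_congr rfl fun b _ => h3 b, ← Finset.mul_sum]
  have h4 : ∑ b : ZMod (2 * n), (RC (i (b - a)) * (RC (i (b - a')))ᵀ) x x' =
      ∑ u : ZMod (2 * n), (RC (i u) * (RC (i (u + (a - a'))))ᵀ) x x' := by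
    rw [← Equiv.sum_comp (Equiv.addRight a)
      (fun b => (RC (i (b - a)) * (RC (i (b - a')))ᵀ) x x')]
    refine Finset.sum_congr rfl fun u _ => ?_
    have h5 : (Equiv.addRight a) u - a = u := by
      rw [Equiv.coe_addRight]; ring
    have h6 : (Equiv.addRight a) u - a' = u + (a - a') := by
      rw [Equiv.coe_addRight]; ring
    rw [h5, h6]
  rw [h4, hkey, Matrix.smul_apply, smul_eq_mul]
  by_cases h5 : a - a' = 0 ∧ x = x'
  · rw [if_pos h5]
    obtain ⟨h6, rfl⟩ := h5
    have h7 : a = a' := sub_eq_zero.1 h6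
    subst h7
    rw [Matrix.one_apply_eq]
    push_cast
    ring
  · rw [if_neg h5, Matrix.one_apply_ne]
    · simp
    · intro h6
      rw [Prod.mk.injEq] at h6
      exact h5 ⟨sub_eq_zero.2 h6.2, h6.1⟩

end Pool.Agent.HadL
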