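import Pool.Agent.HadL.Std

set_option autoImplicit false

namespace Pool.Agent.HadL

open Matrix

private theorem A3_unit {X : Type} [Fintype X] [DecidableEq X] (u : X → ℤ)
    (h : ∑ y, |u y| = 1) :
    ∃ w : X, ∃ s : ℤ, (s = 1 ∨ s = -1) ∧ ∀ y, u y = if y = w then s else 0 := by
  have hw : ∃ w, u w ≠ 0 := by
    by_contra hcon
    push Not at hcon
    simp [hcon] at h
  obtain ⟨w, hw⟩ := hw
  have h1 : 1 ≤ |u w| := Int.one_le_abs hw
  rw [← Finset.add_sum_erase _ _ (Finset.mem_univ w)] at h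
  have h2 : 0 ≤ ∑ y ∈ Finset.univ.erase w, |u y| := Finset.sum_nonneg fun _ _ => abs_nonneg _
  have h3 : ∑ y ∈ Finset.univ.erase w, |u y| = 0 := by omega
  have h4 : |u w| = 1 := by omega
  rw [Finset.sum_eq_zero_iff_of_nonneg (fun _ _ => abs_nonneg _)] at h3
  refine ⟨w, u w, ?_, ?_⟩
  · rcases abs_cases (u w) with h5 | h5 <;> omega
  · intro y
    by_cases hy : y = w
    · simp [hy]
    · rw [if_neg hy]
      exact abs_eq_zero.1 (h3 y (by simp [hy]))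

private theorem A3_zero {X : Type} [Fintype X] (u : X → ℤ) (h : ∑ y, |u y| = 0) (y : X) :
    u y = 0 := by
  rw [Finset.sum_eq_zero_iff_of_nonneg (fun _ _ => abs_nonneg _)] at h
  exact abs_eq_zero.1 (h y (Finset.mem_univ y))

private theorem A3_cases {X : Type} [Fintype X] (u v : X → ℤ)
    (h : ∑ y, |u y| + ∑ y, |v y| = 1) :
    (∑ y, |u y| = 1 ∧ ∑ y, |v y| = 0) ∨ (∑ y, |u y| = 0 ∧ ∑ y, |v y| = 1) := by
  have h1 : 0 ≤ ∑ y, |u y| := Finset.sum_nonneg fun _ _ => abs_nonneg _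
  have h2 : 0 ≤ ∑ y, |v y| := Finset.sum_nonneg fun _ _ => abs_nonneg _
  omega

/-- the matrix `R = diag ε + (permutation matrix of ι)` -/
private def A3_R {X : Type} [DecidableEq X] (ι : X → X) (ε : X → ℤ) : Matrix X X ℤ :=
  fun x y => if y = x then ε x else if y = ι x then 1 else 0

private theorem A3_R_mul {X : Type} [Fintype X] [DecidableEq X] (ι : X → X) (ε : X → ℤ)
    (hne : ∀ x, ι x ≠ x) (B : Matrix X X ℤ) (x y : X) :
    (A3_R ι ε * B) x y = ε x * B x y + B (ι x) y := by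
  rw [Matrix.mul_apply]
  have h : ∀ z, A3_R ι ε x z * B z y =
      (if z = x then ε x * B x y else 0) + (if z = ι x then B (ι x) y else 0) := by
    intro z
    unfold A3_R
    by_cases h1 : z = x
    · have h2 : z ≠ ι x := by rw [h1]; exact (hne x).symm
      rw [if_pos h1, if_pos h1, if_neg h2, h1]; simp
    · by_cases h2 : z = ι x
      · rw [if_neg h1, if_pos h2, if_neg h1, if_pos h2, h2]; simp
      · simp [h1, h2]
  rw [Finset.sum_congr rfl fun z _ => h z, Finset.sum_add_distrib]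
  simp

private theorem A3_row {X : Type} [Fintype X] [DecidableEq X] (ι : X → X) (ε : X → ℤ)
    (hne : ∀ x, ι x ≠ x) (hsq : ∀ x, ε x * ε x = 1) (hιι : ∀ x, ι (ι x) = x)
    (A B : Matrix X X ℤ) (hA : ∀ x, ∑ y, |A x y| + ∑ y, |A (ι x) y| = 1)
    (hB : ∀ x, ∑ y, |B x y| + ∑ y, |B (ι x) y| = 1) (x : X) :
    ∑ y, |(A * (A3_R ι ε * B)) x y| + ∑ y, |(A * (A3_R ι ε * B)) (ι x) y| = 1 := by
  have hcomb : ∀ w, ∑ y, |(A3_R ι ε * B) w y| = 1 := by
    intro w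
    simp only [A3_R_mul ι ε hne]
    have he : |ε w| = 1 := by
      have := hsq w
      have h2 : |ε w| * |ε w| = 1 := by rw [← abs_mul, this]; rfl
      have h3 : 0 ≤ |ε w| := abs_nonneg _
      nlinarith
    rcases A3_cases _ _ (hB w) with ⟨h1, h2⟩ | ⟨h1, h2⟩
    · have h3 := A3_zero _ h2
      simp only [h3, add_zero, abs_mul, he, one_mul]
      exact h1
    · have h3 := A3_zero _ h1
      simp only [h3, mul_zero, zero_add]
      exact h2
  have hkey : ∀ x, ∑ y, |A x y| = 1 → ∑ y, |A (ι x) y| = 0 →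
      ∑ y, |(A * (A3_R ι ε * B)) x y| = 1 ∧ ∑ y, |(A * (A3_R ι ε * B)) (ι x) y| = 0 := by
    intro x h1 h2
    obtain ⟨w, s, hs, hw⟩ := A3_unit _ h1
    have h3 := A3_zero _ h2
    constructor
    · rw [← hcomb w]
      refine Finset.sum_congr rfl fun y _ => ?_
      have : (A * (A3_R ι ε * B)) x y = s * (A3_R ι ε * B) w y := by
        rw [Matrix.mul_apply]
        simp only [hw, ite_mul, zero_mul]
        simp
      rw [this, abs_mul]
      rcases hs with hs | hs <;> simp [hs]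
    · have : ∀ y, (A * (A3_R ι ε * B)) (ι x) y = 0 := by
        intro y
        rw [Matrix.mul_apply]
        simp only [h3, zero_mul]
        simp
      simp [this]
  rcases A3_cases _ _ (hA x) with ⟨h1, h2⟩ | ⟨h1, h2⟩
  · obtain ⟨h3, h4⟩ := hkey x h1 h2
    rw [h3, h4]; rfl
  · obtain ⟨h3, h4⟩ := hkey (ι x) h2 (by rw [hιι]; exact h1)
    rw [hιι] at h4
    rw [h3, h4]; rfl

private theorem A3_R_symm {X : Type} [DecidableEq X] (ι : X → X) (ε : X → ℤ)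
    (hιι : ∀ x, ι (ι x) = x) : (A3_R ι ε)ᵀ = A3_R ι ε := by
  ext x y
  rw [Matrix.transpose_apply]
  unfold A3_R
  by_cases h : x = y
  · subst h; rfl
  · rw [if_neg h, if_neg (Ne.symm h)]
    by_cases h2 : x = ι y
    · rw [if_pos h2, if_pos (by rw [h2, hιι])]
    · rw [if_neg h2, if_neg (fun h3 => h2 (by rw [h3, hιι]))]

private theorem A3_R_sq {X : Type} [Fintype X] [DecidableEq X] (ι : X → X) (ε : X → ℤ)
    (hne : ∀ x, ι x ≠ x) (hsq : ∀ x, ε x * ε x = 1) (hιι : ∀ x, ι (ι x) = x)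
    (hει : ∀ x, ε (ι x) = -ε x) :
    A3_R ι ε * A3_R ι ε = (2 : ℤ) • (1 : Matrix X X ℤ) := by
  ext x y
  rw [A3_R_mul ι ε hne, Matrix.smul_apply]
  by_cases h : y = x
  · subst h
    have h2 : A3_R ι ε y y = ε y := by simp [A3_R]
    have h3 : A3_R ι ε (ι y) y = 1 := by
      unfold A3_R
      rw [if_neg (hne y).symm, if_pos (hιι y).symm]
    rw [h2, h3, hsq, Matrix.one_apply_eq]; rfl
  · rw [Matrix.one_apply_ne (Ne.symm h)]
    by_cases h2 : y = ι x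
    · have h3 : A3_R ι ε x y = 1 := by
        unfold A3_R
        rw [if_neg h, if_pos h2]
      have h4 : A3_R ι ε (ι x) y = ε (ι x) := by
        unfold A3_R
        rw [if_pos h2]
      rw [h3, h4, hει]; simp
    · have h3 : A3_R ι ε x y = 0 := by
        unfold A3_R
        rw [if_neg h, if_neg h2]
      have h4 : A3_R ι ε (ι x) y = 0 := by
        unfold A3_R
        rw [if_neg h2, if_neg (by rw [hιι]; exact h)]
      rw [h3, h4]; simp

private theorem A3_map_mul {X : Type} [Fintype X] (A B : Matrix X X ℤ) :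
    (A * B).map (Int.cast : ℤ → ℚ) =
      A.map (Int.cast : ℤ → ℚ) * B.map (Int.cast : ℤ → ℚ) := by
  ext x y
  simp [Matrix.mul_apply]

private theorem A3_ev {X E₁ E₂ : Type} [Fintype X] [DecidableEq X] [Fintype E₁] [Fintype E₂]
    (p₁ : E₁ → ℤ) (p₂ : E₂ → ℤ) (c₁ : E₁ → Matrix X X ℤ) (c₂ : E₂ → Matrix X X ℤ)
    (R : Matrix X X ℤ) (z : ℚ) (hz : z ≠ 0) :
    ev (fun q : E₁ × E₂ => p₁ q.1 + p₂ q.2) (fun q => c₁ q.1 * (R * c₂ q.2)) z =
      ev p₁ c₁ z * (R.map (Int.cast : ℤ → ℚ) * ev p₂ c₂ z) := by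
  unfold ev
  rw [Fintype.sum_prod_type, Matrix.sum_mul]
  refine Finset.sum_congr rfl fun i _ => ?_
  rw [Matrix.mul_sum, Matrix.mul_sum]
  refine Finset.sum_congr rfl fun j _ => ?_
  simp only [A3_map_mul, zpow_add₀ hz]
  rw [Matrix.mul_smul, Matrix.mul_smul, Matrix.smul_mul, smul_smul, mul_comm (z ^ p₁ i)]

theorem HasD.mul {m : ℕ} {S₁ S₂ : Finset ℤ} (h₁ : HasD m S₁) (h₂ : HasD m S₂)
    (hinj : ∀ a ∈ S₁, ∀ b ∈ S₂, ∀ a' ∈ S₁, ∀ b' ∈ S₂, a + b = a' + b' → a = a' ∧ b = b') :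
    HasD m ((S₁ ×ˢ S₂).image (fun q => q.1 + q.2)) := by
  obtain ⟨m, rfl⟩ : ∃ k, m = k + 1 := ⟨m - 1, by have := h₁.pos; omega⟩
  obtain ⟨E₁, iE₁, D₁, hι₁, hε₁, hp₁, hS₁⟩ := h₁.std
  obtain ⟨E₂, iE₂, D₂, hι₂, hε₂, hp₂, hS₂⟩ := h₂.std
  have hιe : D₂.ι = D₁.ι := by funext x; rw [hι₁, hι₂]
  have hne : ∀ x, D₁.ι x ≠ x := by
    intro x hx
    have h1 := D₁.ε_ι x
    have h2 := D₁.ε_sq x
    rw [hx] at h1
    have h3 : D₁.ε x = 0 := by omega
    rw [h3] at h2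
    simp at h2
  have hrow₂ : ∀ j x, ∑ y, |D₂.c j x y| + ∑ y, |D₂.c j (D₁.ι x) y| = 1 := by
    intro j x; rw [← hιe]; exact D₂.row j x
  have hcol₂ : ∀ j y, ∑ x, |D₂.c j x y| + ∑ x, |D₂.c j x (D₁.ι y)| = 1 := by
    intro j x; rw [← hιe]; exact D₂.col j x
  have hsymm := A3_R_symm D₁.ι D₁.ε D₁.ι_ι
  have hsq := A3_R_sq D₁.ι D₁.ε hne D₁.ε_sq D₁.ι_ι D₁.ε_ι
  refine ⟨Fin (2 ^ m) × Bool, E₁ × E₂, inferInstance, inferInstance, inferInstance,
    { ι := D₁.ι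
      ε := D₁.ε
      p := fun q => D₁.p q.1 + D₂.p q.2
      c := fun q => D₁.c q.1 * (A3_R D₁.ι D₁.ε * D₂.c q.2)
      ι_ι := D₁.ι_ι
      ε_sq := D₁.ε_sq
      ε_ι := D₁.ε_ι
      row := fun q x => A3_row D₁.ι D₁.ε hne D₁.ε_sq D₁.ι_ι _ _ (D₁.row q.1) (hrow₂ q.2) x
      col := ?_
      orth := ?_ }, ?_, ?_, ?_⟩
  · intro q y
    have h := A3_row D₁.ι D₁.ε hne D₁.ε_sq D₁.ι_ι (D₂.c q.2)ᵀ (D₁.c q.1)ᵀ
      (fun x => hcol₂ q.2 x) (fun x => D₁.col q.1 x) y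
    have h2 : (D₂.c q.2)ᵀ * (A3_R D₁.ι D₁.ε * (D₁.c q.1)ᵀ) =
        (D₁.c q.1 * (A3_R D₁.ι D₁.ε * D₂.c q.2))ᵀ := by
      rw [Matrix.transpose_mul, Matrix.transpose_mul, hsymm, Matrix.mul_assoc]
    rw [h2] at h
    simpa only [Matrix.transpose_apply] using h
  · intro z hz
    have hz' : z⁻¹ ≠ 0 := inv_ne_zero hz
    rw [A3_ev D₁.p D₂.p D₁.c D₂.c _ z hz, A3_ev D₁.p D₂.p D₁.c D₂.c _ z⁻¹ hz']
    have hRt : ((A3_R D₁.ι D₁.ε).map (Int.cast : ℤ → ℚ))ᵀ =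
        (A3_R D₁.ι D₁.ε).map (Int.cast : ℤ → ℚ) := by
      rw [← Matrix.transpose_map, hsymm]
    have hR2 : (A3_R D₁.ι D₁.ε).map (Int.cast : ℤ → ℚ) *
        (A3_R D₁.ι D₁.ε).map (Int.cast : ℤ → ℚ) =
        (2 : ℚ) • (1 : Matrix (Fin (2 ^ m) × Bool) (Fin (2 ^ m) × Bool) ℚ) := by
      rw [← A3_map_mul, hsq]
      ext x y
      by_cases h : x = y
      · subst h
        rw [Matrix.map_apply, Matrix.smul_apply, Matrix.smul_apply, Matrix.one_apply_eq,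
          Matrix.one_apply_eq]
        norm_num
      · rw [Matrix.map_apply, Matrix.smul_apply, Matrix.smul_apply, Matrix.one_apply_ne h,
          Matrix.one_apply_ne h]
        norm_num
    rw [Matrix.transpose_mul, Matrix.transpose_mul, hRt]
    have e : ∀ a r b b' a' : Matrix (Fin (2 ^ m) × Bool) (Fin (2 ^ m) × Bool) ℚ,
        a * (r * b) * (b' * r * a') = a * (r * (b * b') * r) * a' := by
      intro a r b b' a'
      simp only [Matrix.mul_assoc]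
    rw [e, D₂.orth z hz, Matrix.mul_smul, Matrix.mul_one, Matrix.smul_mul, hR2, smul_smul,
      Matrix.mul_smul, Matrix.mul_one, Matrix.smul_mul, D₁.orth z hz, smul_smul]
    congr 1
    rw [Fintype.card_prod]
    push_cast
    ring
  · simp [pow_succ]
  · rintro ⟨i, j⟩ ⟨i', j'⟩ h
    have h' : D₁.p i + D₂.p j = D₁.p i' + D₂.p j' := h
    obtain ⟨h3, h4⟩ := hinj _ ((hS₁ _).2 ⟨i, rfl⟩) _ ((hS₂ _).2 ⟨j, rfl⟩) _
      ((hS₁ _).2 ⟨i', rfl⟩) _ ((hS₂ _).2 ⟨j', rfl⟩) h'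
    rw [hp₁ h3, hp₂ h4]
  · intro e
    simp only [Finset.mem_image, Finset.mem_product, Prod.exists]
    constructor
    · rintro ⟨a, b, ⟨ha, hb⟩, rfl⟩
      obtain ⟨i, rfl⟩ := (hS₁ a).1 ha
      obtain ⟨j, rfl⟩ := (hS₂ b).1 hb
      exact ⟨i, j, rfl⟩
    · rintro ⟨i, j, rfl⟩
      exact ⟨_, _, ⟨(hS₁ _).2 ⟨i, rfl⟩, (hS₂ _).2 ⟨j, rfl⟩⟩, rfl⟩

end Pool.Agent.HadL
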