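import Pool.Agent.HadL.Defs

set_option autoImplicit false

namespace Pool.Agent.HadL

open Matrix

open Kronecker in
theorem HasD.pad {m m' : ℕ} (hm : m ≤ m') {S : Finset ℤ} (h : HasD m S) : HasD m' S := by
  obtain ⟨X, E, iX, dX, iE, D, hX, hp, hS⟩ := h
  have hkl : ∀ (A : Matrix X X ℤ) (x : X × Fin (2 ^ (m' - m))),
      ∑ y, |(A ⊗ₖ (1 : Matrix (Fin (2 ^ (m' - m))) (Fin (2 ^ (m' - m))) ℤ)) x y| =
        ∑ y, |A x.1 y| := by
    intro A x
    rw [Fintype.sum_prod_type]
    refine Finset.sum_congr rfl fun y _ => ?_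
    rw [Finset.sum_eq_single x.2]
    · simp [Matrix.kroneckerMap_apply]
    · intro z _ hz
      simp [Matrix.kroneckerMap_apply, Matrix.one_apply_ne hz.symm]
    · intro h; exact absurd (Finset.mem_univ _) h
  have hev : ∀ z : ℚ, ev D.p (fun i => D.c i ⊗ₖ
      (1 : Matrix (Fin (2 ^ (m' - m))) (Fin (2 ^ (m' - m))) ℤ)) z =
      ev D.p D.c z ⊗ₖ (1 : Matrix (Fin (2 ^ (m' - m))) (Fin (2 ^ (m' - m))) ℚ) := by
    intro z
    unfold ev
    ext a b
    have hone : (((1 : Matrix (Fin (2 ^ (m' - m))) (Fin (2 ^ (m' - m))) ℤ) a.2 b.2 : ℤ) : ℚ) =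
        (1 : Matrix (Fin (2 ^ (m' - m))) (Fin (2 ^ (m' - m))) ℚ) a.2 b.2 := by
      by_cases h : a.2 = b.2
      · rw [h, Matrix.one_apply_eq, Matrix.one_apply_eq]; norm_num
      · rw [Matrix.one_apply_ne h, Matrix.one_apply_ne h]; norm_num
    simp only [Matrix.sum_apply, Matrix.smul_apply, Matrix.map_apply, Matrix.kroneckerMap_apply,
      Int.cast_mul, hone, smul_eq_mul, Finset.sum_mul]
    refine Finset.sum_congr rfl fun i _ => ?_
    ring
  refine ⟨X × Fin (2 ^ (m' - m)), E, inferInstance, inferInstance, inferInstance,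
    { ι := fun x => (D.ι x.1, x.2)
      ε := fun x => D.ε x.1
      p := D.p
      c := fun i => D.c i ⊗ₖ 1
      ι_ι := fun x => by simp [D.ι_ι]
      ε_sq := fun x => D.ε_sq x.1
      ε_ι := fun x => D.ε_ι x.1
      row := fun i x => by rw [hkl, hkl]; exact D.row i x.1
      col := ?_
      orth := ?_ }, ?_, hp, hS⟩
  · intro i y
    have h1 : ∀ y : X × Fin (2 ^ (m' - m)), ∑ x, |(D.c i ⊗ₖ
        (1 : Matrix (Fin (2 ^ (m' - m))) (Fin (2 ^ (m' - m))) ℤ)) x y| =
        ∑ x, |D.c i x y.1| := by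
      intro y
      have h := hkl (D.c i)ᵀ y
      rw [← Matrix.transpose_one, Matrix.kroneckerMap_transpose] at h
      simpa only [Matrix.transpose_apply] using h
    rw [h1, h1]
    exact D.col i y.1
  · intro z hz
    rw [hev, hev, ← Matrix.kroneckerMap_transpose, ← Matrix.mul_kronecker_mul, D.orth z hz,
      Matrix.transpose_one, Matrix.one_mul, Matrix.smul_kronecker, Matrix.one_kronecker_one]
  · rw [Fintype.card_prod, hX, Fintype.card_fin, ← pow_add]
    congr 1
    omega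

end Pool.Agent.HadL
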