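import Pool.Agent.HadL.Pair
import Pool.Agent.HadL.Affine
import Pool.Agent.HadL.Mul
import Pool.Agent.HadL.Pad
import Pool.Agent.HadL.Add
import Pool.Agent.HadL.Corr

set_option autoImplicit false

namespace Pool.Agent.HadL

open Matrix

/-- there is a D-family of size `2 ^ m` on the interval `[0, 2 n)` -/
def P (m n : ℕ) : Prop := HasD m (Finset.Ico 0 (2 * (n : ℤ)))

/-- orthogonality from the coefficient identities -/
private theorem A7_orth {X E : Type} [Fintype X] [DecidableEq X] [Fintype E] (p : E → ℤ)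
    (c : E → Matrix X X ℤ)
    (h : ∀ s : ℤ, (2 : ℤ) • ∑ q : E × E, (if p q.1 - p q.2 = s then c q.1 * (c q.2)ᵀ else 0) =
      if s = 0 then (Fintype.card E : ℤ) • (1 : Matrix X X ℤ) else 0) (z : ℚ) (hz : z ≠ 0) :
    ev p c z * (ev p c z⁻¹)ᵀ = ((Fintype.card E : ℚ) / 2) • (1 : Matrix X X ℚ) := by
  classical
  ext x y
  have h2 : (ev p c z * (ev p c z⁻¹)ᵀ) x y =
      ∑ q : E × E, z ^ (p q.1 - p q.2) * (((c q.1 * (c q.2)ᵀ) x y : ℤ) : ℚ) := by
    unfold ev
    rw [Matrix.transpose_sum, Matrix.sum_mul, Matrix.sum_apply, Fintype.sum_prod_type]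
    refine Finset.sum_congr rfl fun i _ => ?_
    rw [Matrix.mul_sum, Matrix.sum_apply]
    refine Finset.sum_congr rfl fun j _ => ?_
    rw [Matrix.transpose_smul, Matrix.smul_mul, Matrix.mul_smul, smul_smul,
      Matrix.smul_apply, smul_eq_mul, _root_.inv_zpow, ← _root_.zpow_neg, ← _root_.zpow_add₀ hz,
      ← sub_eq_add_neg]
    congr 1
    simp only [Matrix.mul_apply, Matrix.transpose_apply, Matrix.map_apply]
    push_cast
    rfl
  let T : Finset ℤ := insert 0 (Finset.univ.image (fun q : E × E => p q.1 - p q.2))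
  have h3 : ∑ q : E × E, z ^ (p q.1 - p q.2) * (((c q.1 * (c q.2)ᵀ) x y : ℤ) : ℚ) =
      ∑ s ∈ T, z ^ s * (((∑ q : E × E,
        (if p q.1 - p q.2 = s then c q.1 * (c q.2)ᵀ else 0)) x y : ℤ) : ℚ) := by
    have h4 : ∀ s : ℤ, z ^ s * (((∑ q : E × E,
        (if p q.1 - p q.2 = s then c q.1 * (c q.2)ᵀ else 0)) x y : ℤ) : ℚ) =
        ∑ q : E × E, (if p q.1 - p q.2 = s then
          z ^ (p q.1 - p q.2) * (((c q.1 * (c q.2)ᵀ) x y : ℤ) : ℚ) else 0) := by
      intro s
      rw [Matrix.sum_apply]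
      push_cast
      rw [Finset.mul_sum]
      refine Finset.sum_congr rfl fun q _ => ?_
      by_cases h5 : p q.1 - p q.2 = s
      · rw [if_pos h5, if_pos h5, h5]
      · rw [if_neg h5, if_neg h5]; simp
    rw [Finset.sum_congr rfl fun s _ => h4 s, Finset.sum_comm]
    refine Finset.sum_congr rfl fun q _ => ?_
    rw [Finset.sum_ite_eq, if_pos]
    exact Finset.mem_insert_of_mem (Finset.mem_image_of_mem _ (Finset.mem_univ q))
  rw [h2, h3, Finset.sum_eq_single (0 : ℤ)]
  · have h5 := congrFun (congrFun (h 0) x) y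
    rw [if_pos rfl, Matrix.smul_apply, Matrix.smul_apply, smul_eq_mul, smul_eq_mul] at h5
    rw [zpow_zero, one_mul, Matrix.smul_apply, smul_eq_mul]
    have hone : (((1 : Matrix X X ℤ) x y : ℤ) : ℚ) = (1 : Matrix X X ℚ) x y := by
      by_cases h : x = y
      · subst h; simp
      · simp [Matrix.one_apply_ne h]
    rw [← hone]
    have h6 := congrArg (fun t : ℤ => (t : ℚ)) h5
    simp only [Int.cast_mul, Int.cast_natCast, Int.cast_ofNat] at h6
    linarith
  · intro s _ hs
    have h5 := congrFun (congrFun (h s) x) y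
    rw [if_neg hs, Matrix.smul_apply, smul_eq_mul] at h5
    have h6 : (∑ q : E × E, (if p q.1 - p q.2 = s then c q.1 * (c q.2)ᵀ else 0)) x y = 0 := by
      have h7 : (0 : Matrix X X ℤ) x y = 0 := rfl
      rw [h7] at h5
      omega
    rw [h6]; simp
  · intro h5
    exact absurd (Finset.mem_insert_self _ _) h5

/-- the affine rule in the other direction -/
private theorem A7_unaffine {m : ℕ} {S T : Finset ℤ} (h : HasD m T) {k t : ℤ} (hk : k ≠ 0)
    (hT : ∀ e, e ∈ T → ∃ f ∈ S, e = k * f + t) (hS : ∀ f ∈ S, k * f + t ∈ T) : HasD m S := by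
  obtain ⟨X, E, iX, dX, iE, D, hX, hp, hT'⟩ := h
  have h1 : ∀ i, ∃ f ∈ S, D.p i = k * f + t := fun i => hT _ ((hT' _).2 ⟨i, rfl⟩)
  choose f hf hpf using h1
  refine ⟨X, E, iX, dX, iE,
    { ι := D.ι
      ε := D.ε
      p := f
      c := D.c
      ι_ι := D.ι_ι
      ε_sq := D.ε_sq
      ε_ι := D.ε_ι
      row := D.row
      col := D.col
      orth := A7_orth f D.c ?_ }, hX, ?_, ?_⟩
  · intro s
    have h2 := D.corr (k * s)
    have h3 : ∀ q : E × E, (D.p q.1 - D.p q.2 = k * s) ↔ (f q.1 - f q.2 = s) := by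
      intro q
      rw [hpf, hpf]
      constructor
      · intro h4
        have h5 : k * (f q.1 - f q.2) = k * s := by linarith
        exact mul_left_cancel₀ hk h5
      · intro h4; rw [← h4]; ring
    have h4 : (k * s = 0) ↔ (s = 0) := by simp [hk]
    simp only [h3, h4] at h2
    exact h2
  · intro i j hij
    have hij : f i = f j := hij
    exact hp (by rw [hpf, hpf, hij])
  · intro e
    show e ∈ S ↔ ∃ i, f i = e
    constructor
    · intro he
      obtain ⟨i, hi⟩ := (hT' _).1 (hS e he)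
      refine ⟨i, mul_left_cancel₀ hk ?_⟩
      have := hpf i
      linarith
    · rintro ⟨i, rfl⟩; exact hf i

/-- the odd numbers in `(-2a, 2a)` -/
private noncomputable def A7_Sym (a : ℕ) : Finset ℤ :=
  (Finset.Ioo (-(2 * (a : ℤ))) (2 * a)).filter (fun e => e % 2 = 1)

private theorem A7_sym_mem (a : ℕ) (e : ℤ) :
    e ∈ A7_Sym a ↔ (-(2 * (a : ℤ)) < e ∧ e < 2 * a) ∧ e % 2 = 1 := by
  unfold A7_Sym
  rw [Finset.mem_filter, Finset.mem_Ioo]

private theorem A7_toSym {m a : ℕ} (h : P m a) : HasD m (A7_Sym a) := by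
  have h1 := HasD.affine h (k := 2) (by norm_num) (1 - 2 * (a : ℤ))
  have h2 : (Finset.Ico 0 (2 * (a : ℤ))).image (fun e => 2 * e + (1 - 2 * (a : ℤ))) =
      A7_Sym a := by
    ext e
    rw [Finset.mem_image, A7_sym_mem]
    constructor
    · rintro ⟨f, hf, rfl⟩
      rw [Finset.mem_Ico] at hf
      omega
    · rintro ⟨⟨h3, h4⟩, h5⟩
      refine ⟨(e - 1 + 2 * a) / 2, ?_, ?_⟩
      · rw [Finset.mem_Ico]; omega
      · omega
  rw [h2] at h1
  exact h1

private theorem A7_ofSym {m a : ℕ} (h : HasD m (A7_Sym a)) : P m a := by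
  refine A7_unaffine (k := 2) (t := 1 - 2 * (a : ℤ)) h (by norm_num) ?_ ?_
  · intro e he
    rw [A7_sym_mem] at he
    refine ⟨(e - 1 + 2 * a) / 2, ?_, ?_⟩
    · rw [Finset.mem_Ico]; omega
    · omega
  · intro f hf
    rw [Finset.mem_Ico] at hf
    rw [A7_sym_mem]
    omega

theorem rules_P : Rules P where
  base := by
    have h := hasD_pair (a := 0) (b := 1) (by norm_num)
    have h2 : ({0, 1} : Finset ℤ) = Finset.Ico 0 (2 * ((1 : ℕ) : ℤ)) := by
      ext e
      rw [Finset.mem_Ico, Finset.mem_insert, Finset.mem_singleton]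
      push_cast
      omega
    unfold P
    rw [← h2]
    exact h
  mono := fun hm h => HasD.pad hm h
  mul := by
    intro m a b ha hb h1 h2
    have h3 := HasD.affine h1 (k := 2 * (b : ℤ)) (by omega) 0
    have h4 := HasD.mul h3 h2 (by
      intro e he f hf e' he' f' hf' h
      rw [Finset.mem_image] at he he'
      obtain ⟨u, hu, rfl⟩ := he
      obtain ⟨u', hu', rfl⟩ := he'
      rw [Finset.mem_Ico] at hf hf'
      have h5 : (u - u') * (2 * (b : ℤ)) = f' - f := by linear_combination h
      have h6 : u = u' := by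
        by_contra hne
        rcases lt_or_gt_of_ne hne with h7 | h7
        · have : (u - u') * (2 * (b : ℤ)) ≤ -1 * (2 * (b : ℤ)) :=
            mul_le_mul_of_nonneg_right (by omega) (by omega)
          omega
        · have : 1 * (2 * (b : ℤ)) ≤ (u - u') * (2 * (b : ℤ)) :=
            mul_le_mul_of_nonneg_right (by omega) (by omega)
          omega
      subst h6
      constructor
      · rfl
      · linarith)
    unfold P
    have h5 : (((Finset.Ico 0 (2 * (a : ℤ))).image (fun e => 2 * (b : ℤ) * e + 0) ×ˢ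
        Finset.Ico 0 (2 * (b : ℤ))).image (fun q => q.1 + q.2)) =
        Finset.Ico 0 (2 * ((2 * a * b : ℕ) : ℤ)) := by
      ext e
      rw [Finset.mem_image, Finset.mem_Ico]
      constructor
      · rintro ⟨⟨u, v⟩, huv, rfl⟩
        rw [Finset.mem_product, Finset.mem_image, Finset.mem_Ico] at huv
        obtain ⟨⟨w, hw, rfl⟩, hv⟩ := huv
        rw [Finset.mem_Ico] at hw
        dsimp only at hv ⊢
        push_cast
        have h6 : 0 ≤ 2 * (b : ℤ) * w := mul_nonneg (by omega) hw.1
        have h7 : 2 * (b : ℤ) * w ≤ 2 * (b : ℤ) * (2 * a - 1) :=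
          mul_le_mul_of_nonneg_left (by omega) (by omega)
        constructor
        · omega
        · have h8 : 2 * (b : ℤ) * (2 * a - 1) = 2 * (2 * a * b) - 2 * b := by ring
          omega
      · rintro ⟨h6, h7⟩
        have hb' : 0 < 2 * (b : ℤ) := by omega
        refine ⟨(2 * (b : ℤ) * (e / (2 * b)) + 0, e % (2 * b)), ?_, ?_⟩
        · rw [Finset.mem_product, Finset.mem_image, Finset.mem_Ico]
          refine ⟨⟨e / (2 * b), ?_, rfl⟩, Int.emod_nonneg _ hb'.ne', Int.emod_lt_of_pos _ hb'⟩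
          rw [Finset.mem_Ico]
          refine ⟨Int.ediv_nonneg h6 hb'.le, ?_⟩
          rw [Int.ediv_lt_iff_lt_mul hb']
          push_cast at h7
          linarith
        · have := Int.mul_ediv_add_emod e (2 * b)
          show 2 * (b : ℤ) * (e / (2 * b)) + 0 + e % (2 * b) = e
          linarith
    rw [h5] at h4
    exact h4
  add := by
    intro m m' a b ha hb h1 h2
    have hm' : 0 < m' := HasD.pos h2
    have h3 := A7_toSym h1
    have h4 := A7_toSym h2
    have h5 : HasD m' {2 * (a : ℤ) + 2 * b, -(2 * (a : ℤ) + 2 * b)} :=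
      HasD.pad hm' (hasD_pair (by omega))
    have h6 := HasD.mul h5 h4 (by
      intro e he f hf e' he' f' hf' h
      rw [Finset.mem_insert, Finset.mem_singleton] at he he'
      rw [A7_sym_mem] at hf hf'
      omega)
    have h7 : ((({2 * (a : ℤ) + 2 * b, -(2 * (a : ℤ) + 2 * b)} : Finset ℤ) ×ˢ
        A7_Sym b).image (fun q => q.1 + q.2)) =
        A7_Sym (a + 2 * b) \ A7_Sym a := by
      ext e
      rw [Finset.mem_image, Finset.mem_sdiff, A7_sym_mem, A7_sym_mem]
      push_cast
      constructor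
      · rintro ⟨⟨u, v⟩, huv, rfl⟩
        rw [Finset.mem_product, A7_sym_mem, Finset.mem_insert, Finset.mem_singleton] at huv
        dsimp only at huv ⊢
        omega
      · rintro ⟨h6, h7⟩
        rcases le_or_gt 0 e with he | he
        · refine ⟨(2 * (a : ℤ) + 2 * b, e - (2 * (a : ℤ) + 2 * b)), ?_, by ring⟩
          rw [Finset.mem_product, A7_sym_mem, Finset.mem_insert, Finset.mem_singleton]
          dsimp only
          omega
        · refine ⟨(-(2 * (a : ℤ) + 2 * b), e + (2 * (a : ℤ) + 2 * b)), ?_, by ring⟩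
          rw [Finset.mem_product, A7_sym_mem, Finset.mem_insert, Finset.mem_singleton]
          dsimp only
          omega
    rw [h7] at h6
    have h8 := HasD.add h3 h6
      (by intro e he; rw [A7_sym_mem] at he ⊢; omega)
      (by
        intro e he
        rw [Finset.mem_sdiff, A7_sym_mem, A7_sym_mem] at he ⊢
        omega)
      Finset.disjoint_sdiff
      ⟨1, by rw [A7_sym_mem]; omega⟩
      ⟨2 * (a : ℤ) + 1, by rw [Finset.mem_sdiff, A7_sym_mem, A7_sym_mem]; push_cast; omega⟩
    rw [Finset.union_sdiff_of_subset (by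
      intro e he
      rw [A7_sym_mem] at he ⊢
      push_cast
      omega)] at h8
    exact A7_ofSym h8
  succ := by
    intro m a ha h1
    have h3 := A7_toSym h1
    have h5 : HasD 1 {2 * (a : ℤ) + 1, -(2 * (a : ℤ) + 1)} := hasD_pair (by omega)
    have h8 := HasD.add h3 h5
      (by intro e he; rw [A7_sym_mem] at he ⊢; omega)
      (by
        intro e he
        rw [Finset.mem_insert, Finset.mem_singleton] at he ⊢
        omega)
      (by
        rw [Finset.disjoint_left]
        intro e he he'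
        rw [A7_sym_mem] at he
        rw [Finset.mem_insert, Finset.mem_singleton] at he'
        omega)
      ⟨1, by rw [A7_sym_mem]; omega⟩
      ⟨2 * (a : ℤ) + 1, Finset.mem_insert_self _ _⟩
    have h9 : A7_Sym a ∪ {2 * (a : ℤ) + 1, -(2 * (a : ℤ) + 1)} = A7_Sym (a + 1) := by
      ext e
      rw [Finset.mem_union, A7_sym_mem, A7_sym_mem, Finset.mem_insert, Finset.mem_singleton]
      push_cast
      omega
    rw [h9] at h8
    exact A7_ofSym h8

end Pool.Agent.HadL
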