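import Pool.Agent.HadL.Had
import Pool.Agent.HadL.RulesP
import Pool.Agent.HadL.Final

set_option autoImplicit false

namespace Pool.Agent.HadL

open Matrix Pool.Agent.HadAP

theorem main_bound :
    ∃ C : ℕ, ∀ n : ℕ, 0 < n → ∃ t : ℕ, t ≤ C * (Nat.log 2 (Nat.log 2 n) + 1) *
      (Nat.log 2 (Nat.log 2 (Nat.log 2 n)) + 1) ^ 2 ∧ ∀ t', t ≤ t' → IsHad (2 ^ t' * n) := by
  obtain ⟨C, hC⟩ := Rules.final rules_P
  refine ⟨C + 1, fun n hn => ⟨C * (Nat.log 2 (Nat.log 2 n) + 1) *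
      (Nat.log 2 (Nat.log 2 (Nat.log 2 n)) + 1) ^ 2 + 1, ?_, ?_⟩⟩
  · have h1 : 1 ≤ (Nat.log 2 (Nat.log 2 n) + 1) *
        (Nat.log 2 (Nat.log 2 (Nat.log 2 n)) + 1) ^ 2 := Nat.succ_le_of_lt (by positivity)
    calc C * (Nat.log 2 (Nat.log 2 n) + 1) * (Nat.log 2 (Nat.log 2 (Nat.log 2 n)) + 1) ^ 2 + 1
        ≤ C * (Nat.log 2 (Nat.log 2 n) + 1) * (Nat.log 2 (Nat.log 2 (Nat.log 2 n)) + 1) ^ 2 +
          (Nat.log 2 (Nat.log 2 n) + 1) * (Nat.log 2 (Nat.log 2 (Nat.log 2 n)) + 1) ^ 2 :=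
          Nat.add_le_add_left h1 _
      _ = (C + 1) * (Nat.log 2 (Nat.log 2 n) + 1) *
          (Nat.log 2 (Nat.log 2 (Nat.log 2 n)) + 1) ^ 2 := by ring
  · intro t' ht'
    obtain ⟨m, rfl⟩ : ∃ m, t' = m + 1 := ⟨t' - 1, by omega⟩
    have h1 := rules_P.mono (Nat.le_of_succ_le_succ ht') (hC n hn)
    have h2 := HasD.isHad hn h1
    have h3 : 2 ^ (m + 1) * n = 2 ^ m * (2 * n) := by ring
    rw [h3]
    exact h2

end Pool.Agent.HadL
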