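import Pool.Agent.HadL.Defs

set_option autoImplicit false

namespace Pool.Agent.HadL

open Matrix

theorem hasD_pair {a b : ℤ} (h : a ≠ b) : HasD 1 {a, b} := by
  refine ⟨Bool, Bool, inferInstance, inferInstance, inferInstance,
    { ι := fun x => !x
      ε := fun x => if x then 1 else -1
      p := fun i => if i then a else b
      c := fun i x y => if x = i ∧ y = i then 1 else 0
      ι_ι := by decide
      ε_sq := by decide
      ε_ι := by decide
      row := by decide
      col := by decide
      orth := ?_ }, by simp, ?_, ?_⟩
  · intro z hz
    ext x y
    have ha : z ^ a ≠ 0 := _root_.zpow_ne_zero a hz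
    have hb : z ^ b ≠ 0 := _root_.zpow_ne_zero b hz
    rcases x with - | - <;> rcases y with - | - <;>
      simp [ev, Matrix.mul_apply, Matrix.add_apply, Matrix.smul_apply, ha, hb]
  · intro i j hij
    rcases i with - | - <;> rcases j with - | - <;> simp at hij ⊢
    · exact h hij.symm
    · exact h hij
  · intro e
    simp [eq_comm, or_comm]

end Pool.Agent.HadL
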