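import Pool.Agent.HadL.Main

set_option autoImplicit false

namespace Pool.Agent.HadL

open Matrix Pool.Agent.HadAP

private theorem C2_log2 : (1 : ℝ) / 2 ≤ Real.log 2 := by
  have := Real.log_two_gt_d9
  linarith

private theorem C2_div {x : ℝ} (hx : 0 ≤ x) : x / Real.log 2 ≤ 2 * x := by
  have h := C2_log2
  rw [div_le_iff₀ (by linarith)]
  nlinarith

/-- `log2 log2 k ≤ 1 + 2 u` if `log k ≤ exp u`. -/
private theorem C2_a {k : ℕ} {u : ℝ} (hu : 0 ≤ u) (hk : 0 < k)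
    (h : (k : ℝ) ≤ Real.exp (Real.exp u)) : (Nat.log 2 (Nat.log 2 k) : ℝ) ≤ 1 + 2 * u := by
  rcases Nat.eq_zero_or_pos (Nat.log 2 k) with h0 | h0
  · rw [h0]
    simp
    linarith
  · have hk' : (0 : ℝ) < k := by exact_mod_cast hk
    have h1 : (Nat.log 2 k : ℝ) ≤ Real.logb 2 k := by exact_mod_cast Real.natLog_le_logb k 2
    have h2 : Real.log k ≤ Real.exp u := by
      have := Real.log_le_log hk' h
      rwa [Real.log_exp] at this
    have h3 : (Nat.log 2 k : ℝ) ≤ 2 * Real.exp u := by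
      refine h1.trans ?_
      unfold Real.logb
      calc Real.log k / Real.log 2 ≤ Real.exp u / Real.log 2 := by
            apply div_le_div_of_nonneg_right h2
            have := C2_log2
            linarith
        _ ≤ _ := C2_div (Real.exp_pos u).le
    have h0' : (0 : ℝ) < (Nat.log 2 k : ℕ) := by exact_mod_cast h0
    have h4 : (Nat.log 2 (Nat.log 2 k) : ℝ) ≤ Real.logb 2 (Nat.log 2 k : ℕ) := by
      exact_mod_cast Real.natLog_le_logb (Nat.log 2 k) 2
    refine h4.trans ?_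
    unfold Real.logb
    have h5 : Real.log (Nat.log 2 k : ℕ) ≤ Real.log 2 + u := by
      have := Real.log_le_log h0' h3
      rwa [Real.log_mul (by norm_num) (Real.exp_pos u).ne', Real.log_exp] at this
    have h6 := C2_log2
    calc Real.log (Nat.log 2 k : ℕ) / Real.log 2 ≤ (Real.log 2 + u) / Real.log 2 :=
          div_le_div_of_nonneg_right h5 (by linarith)
      _ = 1 + u / Real.log 2 := by
          rw [add_div, div_self (by linarith)]
      _ ≤ _ := by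
          have := C2_div hu
          linarith

private theorem C2_b {a : ℕ} {v : ℝ} (hv : 1 ≤ v) (h : (a : ℝ) ≤ v) :
    (Nat.log 2 a : ℝ) ≤ 2 * Real.log v := by
  have hv0 := Real.log_nonneg hv
  rcases Nat.eq_zero_or_pos a with h0 | h0
  · rw [h0]
    simp
    exact hv0
  · have h0' : (0 : ℝ) < a := by exact_mod_cast h0
    have h4 : (Nat.log 2 a : ℝ) ≤ Real.logb 2 a := by
      exact_mod_cast Real.natLog_le_logb a 2
    refine h4.trans ?_
    unfold Real.logb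
    have h6 := C2_log2
    calc Real.log a / Real.log 2 ≤ Real.log v / Real.log 2 :=
          div_le_div_of_nonneg_right (Real.log_le_log h0' h) (by linarith)
      _ ≤ _ := C2_div hv0

private theorem C2_ev (C : ℕ) {e : ℝ} (he : 0 < e) :
    ∀ᶠ x : ℝ in Filter.atTop, 1 ≤ x ∧
      C * (4 * x ^ (1 - 3 * e)) * (2 * Real.log (3 * x) + 1) ^ 2 ≤ x := by
  have h1 : ∀ᶠ x : ℝ in Filter.atTop, Real.log x ≤ (1 / 4) * x ^ e := by
    have h := (isLittleO_log_rpow_atTop he).bound (c := 1 / 4) (by norm_num)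
    filter_upwards [h, Filter.eventually_ge_atTop (1 : ℝ)] with x hx hx1
    rw [Real.norm_of_nonneg (Real.log_nonneg hx1),
      Real.norm_of_nonneg (Real.rpow_nonneg (by linarith) _)] at hx
    exact hx
  have h2 : ∀ᶠ x : ℝ in Filter.atTop, 2 * (2 * Real.log 3 + 1) ≤ x ^ e :=
    (tendsto_rpow_atTop he).eventually_ge_atTop _
  have h3 : ∀ᶠ x : ℝ in Filter.atTop, (4 * C : ℝ) ≤ x ^ e :=
    (tendsto_rpow_atTop he).eventually_ge_atTop _
  filter_upwards [h1, h2, h3, Filter.eventually_ge_atTop (1 : ℝ)] with x hx1 hx2 hx3 hx4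
  refine ⟨hx4, ?_⟩
  have hx0 : 0 < x := by linarith
  have h4 : Real.log (3 * x) = Real.log 3 + Real.log x := Real.log_mul (by norm_num) hx0.ne'
  have h5 : 0 ≤ Real.log 3 := Real.log_nonneg (by norm_num)
  have h6 := Real.log_nonneg hx4
  have h7 : 2 * Real.log (3 * x) + 1 ≤ x ^ e := by rw [h4]; linarith
  have h8 : 0 ≤ 2 * Real.log (3 * x) + 1 := by rw [h4]; linarith
  have h9 : 0 ≤ x ^ (1 - 3 * e) := Real.rpow_nonneg hx0.le _
  have hC : (0 : ℝ) ≤ C := Nat.cast_nonneg C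
  calc C * (4 * x ^ (1 - 3 * e)) * (2 * Real.log (3 * x) + 1) ^ 2
      ≤ C * (4 * x ^ (1 - 3 * e)) * (x ^ e) ^ 2 := by gcongr
    _ = (4 * C) * (x ^ (1 - 3 * e) * (x ^ e) ^ 2) := by ring
    _ ≤ x ^ e * (x ^ (1 - 3 * e) * (x ^ e) ^ 2) := by gcongr
    _ = x := by
        have h10 : (x ^ e) ^ 2 = x ^ e * x ^ e := by ring
        rw [h10, ← Real.rpow_add hx0, ← Real.rpow_add hx0, ← Real.rpow_add hx0]
        have h11 : e + (1 - 3 * e + (e + e)) = 1 := by ring
        rw [h11, Real.rpow_one]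

theorem main_progression (δ : ℝ) (hδ : 0 < δ) :
    ∃ t₀ : ℕ, ∀ t : ℕ, t₀ ≤ t → ∀ k : ℕ, 0 < k →
      (k : ℝ) ≤ Real.exp (Real.exp ((t : ℝ) ^ (1 - δ))) → IsHad (k * 2 ^ t) := by
  obtain ⟨C, hC⟩ := main_bound
  set e : ℝ := min δ (1 / 2) / 3 with he
  have he0 : 0 < e := by positivity
  have heδ : 1 - δ ≤ 1 - 3 * e := by
    have : min δ (1 / 2) ≤ δ := min_le_left _ _
    linarith
  have he1 : 0 ≤ 1 - 3 * e := by
    have : min δ (1 / 2) ≤ 1 / 2 := min_le_right _ _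
    linarith
  obtain ⟨t₀, ht₀⟩ := Filter.eventually_atTop.1
    (tendsto_natCast_atTop_atTop.eventually (C2_ev C he0) : ∀ᶠ t : ℕ in Filter.atTop, _)
  refine ⟨t₀, fun t ht k hk hkt => ?_⟩
  obtain ⟨h1, h2⟩ := ht₀ t ht
  obtain ⟨s, hs, hs'⟩ := hC k hk
  rw [Nat.mul_comm]
  apply hs'
  refine hs.trans ?_
  set u : ℝ := (t : ℝ) ^ (1 - δ) with hu
  set v : ℝ := (t : ℝ) ^ (1 - 3 * e) with hv
  have h3 : 0 ≤ u := Real.rpow_nonneg (by linarith) _
  have h4 : u ≤ v := Real.rpow_le_rpow_of_exponent_le h1 heδ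
  have h5 : 1 ≤ v := Real.one_le_rpow h1 he1
  have h6 : v ≤ t := by
    have := Real.rpow_le_rpow_of_exponent_le h1 (by linarith : 1 - 3 * e ≤ 1)
    rwa [Real.rpow_one] at this
  have h7 := C2_a h3 hk hkt
  have h8 : (Nat.log 2 (Nat.log 2 k) : ℝ) ≤ 3 * t := by linarith
  have h9 := C2_b (by linarith : (1 : ℝ) ≤ 3 * t) h8
  have hC0 : (0 : ℝ) ≤ C := Nat.cast_nonneg C
  have h10 : ((C * (Nat.log 2 (Nat.log 2 k) + 1) *
      (Nat.log 2 (Nat.log 2 (Nat.log 2 k)) + 1) ^ 2 : ℕ) : ℝ) ≤ t := by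
    push_cast
    have h11 : ((Nat.log 2 (Nat.log 2 k) : ℕ) : ℝ) + 1 ≤ 4 * v := by linarith
    refine le_trans ?_ h2
    gcongr
  exact_mod_cast h10

end Pool.Agent.HadL
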