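import Pool.Agent.HadL.Chain
import Pool.Agent.HadL.All

set_option autoImplicit false

namespace Pool.Agent.HadL

theorem Rules.recur {P : ℕ → ℕ → Prop} (hP : Rules P) (L w : ℕ) (hw1 : 1 ≤ w)
    (hw : ∀ n, 0 < n → n < 2 ^ (100 * (Nat.log 2 L + 1)) → P w n) :
    ∀ n, 0 < n → n < 2 ^ L → P (100 * (Nat.log 2 L + 1) * (w + 1)) n := by
  intro n hn hnL
  set l := Nat.log 2 L with hl
  have hLl : L < 2 ^ (l + 1) := Nat.lt_pow_succ_log_self (by norm_num) L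
  have hL4 : L + 4 ≤ 2 ^ (l + 3) := by
    have h1 : 2 ^ (l + 3) = 4 * 2 ^ (l + 1) := by ring
    have h2 : 2 ≤ 2 ^ (l + 1) := by
      calc 2 = 2 ^ 1 := by norm_num
        _ ≤ 2 ^ (l + 1) := Nat.pow_le_pow_right (by norm_num) (by omega)
    omega
  set ρ := 9 * l + 24 with hρ
  have h16 : 16 ^ (2 * (l + 1)) = 2 ^ (8 * l + 8) := by
    rw [show (16 : ℕ) = 2 ^ 4 by norm_num, ← pow_mul]
    congr 1
    ring
  have hA : 8 * (512 * (L + 4) * (16 ^ (2 * (l + 1)) - 1)) ≤ 2 ^ ρ := by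
    calc 8 * (512 * (L + 4) * (16 ^ (2 * (l + 1)) - 1))
        ≤ 8 * (512 * (L + 4) * 16 ^ (2 * (l + 1))) := by
          gcongr
          exact Nat.sub_le _ _
      _ ≤ 8 * (512 * 2 ^ (l + 3) * 2 ^ (8 * l + 8)) := by rw [h16]; gcongr
      _ = 2 ^ (9 * l + 23) := by
          have h1 : (8 : ℕ) = 2 ^ 3 := by norm_num
          have h2 : (512 : ℕ) = 2 ^ 9 := by norm_num
          have h3 : 8 * (512 * 2 ^ (l + 3) * 2 ^ (8 * l + 8)) =
              2 ^ 3 * (2 ^ 9 * 2 ^ (l + 3) * 2 ^ (8 * l + 8)) := by norm_num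
          rw [h3, ← pow_add, ← pow_add, ← pow_add]
          congr 1
          ring
      _ ≤ 2 ^ ρ := Nat.pow_le_pow_right (by norm_num) (by omega)
  set s := w + (2 * (l + 1)) * (w + 3) with hs
  have hscale : L ≤ scale (3 * ρ + 20) (2 * (l + 1)) := by
    refine le_trans ?_ (scale_grow (3 * ρ + 20) (by omega) (l + 1))
    calc L ≤ 2 ^ (l + 1) * 1 := by omega
      _ ≤ 2 ^ (l + 1) * (3 * ρ + 20) := by gcongr; omega
  have hbad : ∀ i, i ≤ L → 8 * bad P s i ≤ 2 ^ i := by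
    intro i hi
    have h1 := hP.chain L ρ w hw1
      (fun n h0 hn => hw n h0 (lt_of_lt_of_le hn (Nat.pow_le_pow_right (by norm_num) (by omega))))
      (2 * (l + 1)) (by omega) i (by omega) hi
    have h2 : 2 ^ ρ * (8 * bad P s i) ≤ 2 ^ ρ * 2 ^ i := by
      calc 2 ^ ρ * (8 * bad P s i) = 8 * (2 ^ ρ * bad P s i) := by ring
        _ ≤ 8 * (512 * (L + 4) * (16 ^ (2 * (l + 1)) - 1) * 2 ^ i) := by gcongr
        _ = (8 * (512 * (L + 4) * (16 ^ (2 * (l + 1)) - 1))) * 2 ^ i := by ring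
        _ ≤ 2 ^ ρ * 2 ^ i := by gcongr
    exact Nat.le_of_mul_le_mul_left h2 (by positivity)
  have h3 := hP.all s L (by omega) hbad n hn
    (lt_trans hnL (Nat.pow_lt_pow_right (by norm_num) (by omega)))
  refine hP.mono ?_ h3
  rw [hs]
  nlinarith [Nat.zero_le (l * w)]

end Pool.Agent.HadL
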