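import Pool.Agent.HadL.Defs

set_option autoImplicit false

namespace Pool.Agent.HadL

open Matrix

theorem ev_comm {X E : Type} [Fintype X] [DecidableEq X] [Fintype E] (D : DF X E)
    (hE : 0 < Fintype.card E) (z : ℚ) (hz : z ≠ 0) :
    (ev D.p D.c z⁻¹)ᵀ * ev D.p D.c z = ((Fintype.card E : ℚ) / 2) • (1 : Matrix X X ℚ) := by
  have h := D.orth z hz
  have hl : ((Fintype.card E : ℚ) / 2) ≠ 0 := by positivity
  have h1 : (((Fintype.card E : ℚ) / 2)⁻¹ • ev D.p D.c z) * (ev D.p D.c z⁻¹)ᵀ = 1 := by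
    rw [Matrix.smul_mul, h, smul_smul, inv_mul_cancel₀ hl, one_smul]
  have h2 := mul_eq_one_comm.1 h1
  rw [Matrix.mul_smul] at h2
  rw [← h2, smul_smul, mul_inv_cancel₀ hl, one_smul]

private theorem A0_ne {X E : Type} [Fintype X] [DecidableEq X] [Fintype E] (D : DF X E) (x : X) :
    D.ι x ≠ x := by
  intro h3
  have h4 := D.ε_ι x
  rw [h3] at h4
  have h5 := D.ε_sq x
  have h6 : D.ε x = 0 := by omega
  rw [h6] at h5
  simp at h5

private theorem A0_ev {X Y E : Type} [Fintype E] (p : E → ℤ) (c : E → Matrix X X ℤ) (f : Y → X)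
    (z : ℚ) : ev p (fun i => (c i).submatrix f f) z = (ev p c z).submatrix f f := by
  unfold ev
  ext a b
  simp [Matrix.sum_apply]

/-- transport of a D-family along a bijection -/
private def A0_reindex {X Y E : Type} [Fintype X] [DecidableEq X] [Fintype Y] [DecidableEq Y]
    [Fintype E] (D : DF X E) (f : Y ≃ X) : DF Y E where
  ι := fun y => f.symm (D.ι (f y))
  ε := fun y => D.ε (f y)
  p := D.p
  c := fun i => (D.c i).submatrix f f
  ι_ι := fun y => by simp [D.ι_ι]
  ε_sq := fun y => D.ε_sq (f y)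
  ε_ι := fun y => by simp [D.ε_ι]
  row := fun i y => by
    simp only [Matrix.submatrix_apply, Equiv.apply_symm_apply]
    rw [Equiv.sum_comp f (fun x => |D.c i (f y) x|),
      Equiv.sum_comp f (fun x => |D.c i (D.ι (f y)) x|)]
    exact D.row i (f y)
  col := fun i y => by
    simp only [Matrix.submatrix_apply, Equiv.apply_symm_apply]
    rw [Equiv.sum_comp f (fun x => |D.c i x (f y)|),
      Equiv.sum_comp f (fun x => |D.c i x (D.ι (f y))|)]
    exact D.col i (f y)
  orth := fun z hz => by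
    rw [A0_ev, A0_ev, Matrix.transpose_submatrix, Matrix.submatrix_mul_equiv, D.orth z hz]
    ext a b
    simp only [Matrix.submatrix_apply, Matrix.smul_apply, Matrix.one_apply,
      f.injective.eq_iff]

theorem HasD.std {m : ℕ} {S : Finset ℤ} (h : HasD (m + 1) S) :
    ∃ (E : Type) (_ : Fintype E) (D : DF (Fin (2 ^ m) × Bool) E),
      (∀ x, D.ι x = (x.1, !x.2)) ∧ (∀ x, D.ε x = if x.2 then -1 else 1) ∧
      Function.Injective D.p ∧ ∀ e : ℤ, e ∈ S ↔ ∃ i, D.p i = e := by
  classical
  obtain ⟨X, E, iX, dX, iE, D, hX, hp, hS⟩ := h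
  have hε : ∀ x, D.ε x = 1 ∨ D.ε x = -1 := fun x => mul_self_eq_one_iff.1 (D.ε_sq x)
  -- the classes of signs
  let g : {x // D.ε x = 1} × Bool → X := fun q => if q.2 then D.ι q.1 else q.1
  have hg : Function.Bijective g := by
    constructor
    · rintro ⟨⟨x, hx⟩, b⟩ ⟨⟨y, hy⟩, b'⟩ h
      cases b <;> cases b'
      · have h' : x = y := h
        subst h'; rfl
      · exfalso
        have h' : x = D.ι y := h
        have := D.ε_ι y
        rw [← h', hx, hy] at this
        omega
      · exfalso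
        have h' : D.ι x = y := h
        have := D.ε_ι x
        rw [h', hx, hy] at this
        omega
      · have h' : D.ι x = D.ι y := h
        have h'' : x = y := by rw [← D.ι_ι x, h', D.ι_ι]
        subst h''; rfl
    · intro x
      rcases hε x with h | h
      · exact ⟨(⟨x, h⟩, false), rfl⟩
      · refine ⟨(⟨D.ι x, by rw [D.ε_ι, h]; norm_num⟩, true), ?_⟩
        exact D.ι_ι x
  have hc : Fintype.card {x // D.ε x = 1} = 2 ^ m := by
    have h1 := Fintype.card_of_bijective hg
    rw [Fintype.card_prod, Fintype.card_bool, hX, pow_succ] at h1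
    omega
  let e : Fin (2 ^ m) ≃ {x // D.ε x = 1} := (Fintype.equivFinOfCardEq hc).symm
  let f : Fin (2 ^ m) × Bool ≃ X :=
    (Equiv.prodCongr e (Equiv.refl Bool)).trans (Equiv.ofBijective g hg)
  have hf : ∀ q, f q = if q.2 then D.ι (e q.1) else e q.1 := fun q => rfl
  refine ⟨E, iE, A0_reindex D f, ?_, ?_, hp, hS⟩
  · intro x
    show f.symm (D.ι (f x)) = (x.1, !x.2)
    rw [Equiv.symm_apply_eq, hf, hf]
    rcases x with ⟨k, b⟩
    cases b
    · rfl
    · exact D.ι_ι _
  · intro x
    show D.ε (f x) = _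
    rw [hf]
    rcases x with ⟨k, b⟩
    cases b
    · exact (e k).2
    · show D.ε (D.ι (e k)) = -1
      rw [D.ε_ι, (e k).2]

theorem HasD.pos {m : ℕ} {S : Finset ℤ} (h : HasD m S) : 0 < m := by
  obtain ⟨X, E, iX, dX, iE, D, hX, hp, hS⟩ := h
  rcases Nat.eq_zero_or_pos m with h0 | h0
  · exfalso
    subst h0
    rw [pow_zero, Fintype.card_eq_one_iff] at hX
    obtain ⟨x, hx⟩ := hX
    exact A0_ne D x (hx _)
  · exact h0

end Pool.Agent.HadL
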