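import Pool.Agent.HadL.Cover

set_option autoImplicit false

namespace Pool.Agent.HadL

/-- the number of `n` in the dyadic interval `[2 ^ i, 2 ^ (i + 1))` with `¬ P s n` -/
noncomputable def bad (P : ℕ → ℕ → Prop) (s i : ℕ) : ℕ := by
  classical
  exact ((Finset.Ico (2 ^ i) (2 ^ (i + 1))).filter (fun n => ¬ P s n)).card

open Classical in
private theorem B4_card (P : ℕ → ℕ → Prop) (s m : ℕ) :
    ((Finset.Ico 1 (2 ^ m)).filter (fun n => ¬ P s n)).card ≤
      ∑ i ∈ Finset.range m, bad P s i := by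
  induction m with
  | zero => simp
  | succ m ih =>
    rw [Finset.sum_range_succ]
    have h1 : Finset.Ico 1 (2 ^ (m + 1)) = Finset.Ico 1 (2 ^ m) ∪ Finset.Ico (2 ^ m) (2 ^ (m + 1)) := by
      rw [Finset.Ico_union_Ico_eq_Ico]
      · exact Nat.one_le_two_pow
      · exact Nat.pow_le_pow_right (by norm_num) (by omega)
    rw [h1, Finset.filter_union]
    refine le_trans (Finset.card_union_le _ _) ?_
    have h2 : ((Finset.Ico (2 ^ m) (2 ^ (m + 1))).filter (fun n => ¬ P s n)).card = bad P s m := by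
      unfold bad
      congr
    rw [h2]
    exact Nat.add_le_add_right ih _

private theorem B4_good {P : ℕ → ℕ → Prop} (hP : Rules P) (s w ρ c n : ℕ)
    (hw : ∀ r, 0 < r → r < 2 ^ ρ → P w r) (hc : 0 < c) (hd : 0 < n / (2 * c))
    (hPc : P s c) (hPd : P s (n / (2 * c))) (hr : n % (2 * c) < 2 ^ ρ) :
    P (s + w + 3) n := by
  set d := n / (2 * c) with hdd
  set r := n % (2 * c) with hrr
  have hn : 2 * c * d + r = n := Nat.div_add_mod n (2 * c)
  have h1 : P s (2 * c * d) := hP.mul hc hd hPc hPd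
  have hpos : 0 < 2 * c * d := by positivity
  rcases Nat.eq_zero_or_pos r with h0 | h0
  · rw [← hn, h0, Nat.add_zero]
    exact hP.mono (by omega) h1
  · rcases Nat.eq_zero_or_pos (r / 2) with h2 | h2
    · have h3 : r = 1 := by omega
      rw [← hn, h3]
      exact hP.mono (by omega) (hP.succ hpos h1)
    · have h4 : P w (r / 2) := hw _ h2 (by omega)
      have h5 : P (s + w + 1) (2 * c * d + 2 * (r / 2)) := hP.add hpos h2 h1 h4
      rcases Nat.mod_two_eq_zero_or_one r with h6 | h6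
      · have h7 : 2 * (r / 2) = r := by omega
        rw [h7, hn] at h5
        exact hP.mono (by omega) h5
      · have h7 : 2 * c * d + 2 * (r / 2) + 1 = n := by omega
        rw [← h7]
        exact hP.mono (by omega) (hP.succ (by omega) h5)

theorem Rules.step {P : ℕ → ℕ → Prop} (hP : Rules P) (s w ρ k i : ℕ) (hk : 1 ≤ k)
    (hki : 3 * k ≤ i) (hρ : ρ ≤ k) (hs : 1 ≤ s) (hw : ∀ r, 0 < r → r < 2 ^ ρ → P w r)
    (hG : 2 * bad P s k ≤ 2 ^ k) :
    2 ^ ρ * bad P (s + w + 3) i ≤ 512 * (k + 2) * 2 ^ i + 768 * 2 ^ ρ * 4 ^ k +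
      16 * 2 ^ ρ * 2 ^ k * ∑ i' ∈ Finset.range (i - k), bad P s i' := by
  classical
  set G : Finset ℕ := (Finset.Ico (2 ^ k) (2 ^ (k + 1))).filter (fun n => P s n) with hGd
  set B : Finset ℕ := (Finset.Ico 1 (2 ^ (i - k))).filter (fun n => ¬ P s n) with hBd
  have hGs : G ⊆ Finset.Ico (2 ^ k) (2 ^ (k + 1)) := Finset.filter_subset _ _
  have hbk : ((Finset.Ico (2 ^ k) (2 ^ (k + 1))).filter (fun n => ¬ P s n)).card = bad P s k := by
    unfold bad
    congr
  have hsum : G.card + bad P s k = 2 ^ k := by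
    rw [← hbk, hGd, Finset.card_filter_add_card_filter_not, Nat.card_Ico, pow_succ]
    omega
  have hGc : 2 ^ k ≤ 2 * G.card := by omega
  have hcov := cover k i (2 ^ ρ) hki Nat.one_le_two_pow
    (Nat.pow_le_pow_right (by norm_num) hρ) G B hGs hGc
  have hBc : B.card ≤ ∑ i' ∈ Finset.range (i - k), bad P s i' := B4_card P s (i - k)
  have hbi : ((Finset.Ico (2 ^ i) (2 ^ (i + 1))).filter (fun n => ¬ P (s + w + 3) n)).card =
      bad P (s + w + 3) i := by
    unfold bad
    congr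
  have hsub : (Finset.Ico (2 ^ i) (2 ^ (i + 1))).filter (fun n => ¬ P (s + w + 3) n) ⊆
      (Finset.Ico (2 ^ i) (2 ^ (i + 1))).filter
        (fun n => ∀ c ∈ G, n % (2 * c) < 2 ^ ρ → n / (2 * c) ∈ B) := by
    intro n hn
    rw [Finset.mem_filter] at hn ⊢
    refine ⟨hn.1, ?_⟩
    intro c hc hr
    rw [hGd, Finset.mem_filter, Finset.mem_Ico] at hc
    obtain ⟨⟨hc1, hc2⟩, hPc⟩ := hc
    have hn1 := (Finset.mem_Ico.mp hn.1).1
    have hn2 := (Finset.mem_Ico.mp hn.1).2
    have hcpos : 0 < c := lt_of_lt_of_le (by positivity) hc1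
    have h2c : 2 * c ≤ n := by
      have h1 : 2 * c ≤ 2 ^ (k + 2) := by
        have : 2 ^ (k + 2) = 2 * 2 ^ (k + 1) := by ring
        omega
      have h2 : 2 ^ (k + 2) ≤ 2 ^ i := Nat.pow_le_pow_right (by norm_num) (by omega)
      omega
    have hd : 0 < n / (2 * c) := Nat.div_pos h2c (by omega)
    have hd2 : n / (2 * c) < 2 ^ (i - k) := by
      rw [Nat.div_lt_iff_lt_mul (by omega)]
      have h1 : 2 ^ (i + 1) = 2 ^ (i - k) * (2 * 2 ^ k) := by
        have : i + 1 = (i - k) + (1 + k) := by omega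
        rw [this, pow_add, pow_add, pow_one]
      have h2 : 2 ^ (i - k) * (2 * 2 ^ k) ≤ 2 ^ (i - k) * (2 * c) := by gcongr
      omega
    by_contra hB
    apply hn.2
    have hPd : P s (n / (2 * c)) := by
      by_contra hcon
      apply hB
      rw [hBd, Finset.mem_filter, Finset.mem_Ico]
      exact ⟨⟨hd, hd2⟩, hcon⟩
    exact B4_good hP s w ρ c n hw hcpos hd hPc hPd hr
  have hcard := Finset.card_le_card hsub
  rw [hbi] at hcard
  calc 2 ^ ρ * bad P (s + w + 3) i
      ≤ 2 ^ ρ * ((Finset.Ico (2 ^ i) (2 ^ (i + 1))).filter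
        (fun n => ∀ c ∈ G, n % (2 * c) < 2 ^ ρ → n / (2 * c) ∈ B)).card := by gcongr
    _ ≤ 512 * (k + 2) * 2 ^ i + 768 * 2 ^ ρ * 4 ^ k + 16 * 2 ^ ρ * 2 ^ k * B.card := hcov
    _ ≤ _ := by gcongr

end Pool.Agent.HadL
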